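import Mathlib.Analysis.Calculus.ContDiff.Operations
import Mathlib.Analysis.Complex.Basic
import Mathlib.Analysis.SpecialFunctions.Exp
import Mathlib.MeasureTheory.Measure.Lebesgue.Complex
import Mathlib.MeasureTheory.Integral.Bochner.Basic
import Mathlib.MeasureTheory.Function.LpSeminorm.Basic
import Mathlib.MeasureTheory.Function.LocallyIntegrable
import Mathlib.Topology.UniformSpace.LocallyUniformConvergence
import Mathlib.Analysis.SpecialFunctions.SmoothTransition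
import Mathlib.Analysis.Calculus.LineDeriv.IntegrationByParts
import Mathlib.MeasureTheory.Constructions.Polish.EmbeddingReal
import Mathlib.Topology.Separation.CompletelyRegular
import Pool.Agent.MP_54e5d7_al.atc.Spec
import Pool.Agent.MP_54e5d7_al.atc.Hol1
import Pool.Agent.MP_54e5d7_al.atc.Meas1

-- ======== part 0: formerly Pool.Agent.MP_54e5d7_al.atc.pde.Spec
section MrgPart0

-- ======== part 0: formerly Pool.Agent.MP_54e5d7_al.atc.pde.Defs
section MrgPart0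

/-! Definitions of the d-bar block: Wirtinger derivatives on `ℂ × ℂ`, weighted norms, one chart
with a group of transition maps, a line bundle given by a groupoid cocycle. -/

open Set MeasureTheory Complex
open scoped ContDiff ENNReal

noncomputable section

namespace Pool.Agent.MP54.PDE

abbrev V := ℂ × ℂ

/-- The two coordinate vectors. -/
def e (k : Fin 2) : V := ![((1 : ℂ), (0 : ℂ)), ((0 : ℂ), (1 : ℂ))] k

/-- The two coordinates. -/
def co (k : Fin 2) (z : V) : ℂ := ![z.1, z.2] k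

/-- The Wirtinger derivative `∂/∂z_k`. -/
def dz (k : Fin 2) (u : V → ℂ) (z : V) : ℂ :=
  (fderiv ℝ u z (e k) - I * fderiv ℝ u z (I • e k)) / 2

/-- The Wirtinger derivative `∂/∂ conj z_k`. -/
def db (k : Fin 2) (u : V → ℂ) (z : V) : ℂ :=
  (fderiv ℝ u z (e k) + I * fderiv ℝ u z (I • e k)) / 2

/-- A real function seen as a complex one. -/
def cx (ψ : V → ℝ) (z : V) : ℂ := (ψ z : ℂ)

/-- Minus the adjoint of `db k` for the weight `exp (-ψ)`. -/
def dl (ψ : V → ℝ) (k : Fin 2) (u : V → ℂ) (z : V) : ℂ :=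
  dz k u z - dz k (cx ψ) z * u z

/-- The Levi form of `ψ` at `z` on the vector `ξ`. -/
def lev (ψ : V → ℝ) (z ξ : V) : ℝ :=
  (fderiv ℝ (fderiv ℝ ψ) z ξ ξ + fderiv ℝ (fderiv ℝ ψ) z (I • ξ) (I • ξ)) / 4

/-- The Levi form of `ψ` is at most `-c` times the Euclidean form on `U`. -/
def Neg (ψ : V → ℝ) (c : ℝ) (U : Set V) : Prop :=
  ∀ z ∈ U, ∀ ξ : V, lev ψ z ξ ≤ -c * (‖ξ.1‖ ^ 2 + ‖ξ.2‖ ^ 2)

/-- Test functions supported in `U`. -/
def Test (U : Set V) (w : V → ℂ) : Prop :=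
  ContDiff ℝ ∞ w ∧ HasCompactSupport w ∧ tsupport w ⊆ U

/-- Weighted square norm on `U`. -/
def nrm (ψ : V → ℝ) (U : Set V) (f : V → ℂ) : ℝ≥0∞ :=
  ∫⁻ z in U, ENNReal.ofReal (‖f z‖ ^ 2 * Real.exp (-ψ z))

/-- Weighted square norm of `dbar f` on `U`. -/
def en (ψ : V → ℝ) (U : Set V) (f : V → ℂ) : ℝ≥0∞ :=
  nrm ψ U (db 0 f) + nrm ψ U (db 1 f)

/-- Convolution with a real kernel. -/
def conv (φ : V → ℝ) (g : V → ℂ) (x : V) : ℂ := ∫ y, (φ (x - y) : ℂ) * g y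

/-- A group acting by holomorphic maps on an open set, with two nested relatively compact open
sets; the translates of the small one cover, those of the big one overlap finitely. -/
structure Chart (Γ : Type) [Group Γ] where
  Om : Set V
  U1 : Set V
  U2 : Set V
  act : Γ → V → V
  oOm : IsOpen Om
  o1 : IsOpen U1
  o2 : IsOpen U2
  c1 : IsCompact (closure U1)
  s12 : closure U1 ⊆ U2
  c2 : IsCompact (closure U2)
  s2 : closure U2 ⊆ Om
  maps : ∀ g, MapsTo (act g) Om Om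
  one : ∀ z ∈ Om, act 1 z = z
  mul : ∀ g h, ∀ z ∈ Om, act (g * h) z = act g (act h z)
  hol : ∀ g, DifferentiableOn ℂ (act g) Om
  cover : ∀ z ∈ Om, ∃ g, act g z ∈ U1
  fin : {g | ∃ z ∈ U2, act g z ∈ U2}.Finite

variable {Γ : Type} [Group Γ]

/-- The overlap of the chart with its translate. -/
def Chart.ov (C : Chart Γ) (g : Γ) : Set V := {z | z ∈ C.U2 ∧ C.act g z ∈ C.U2}

/-- The finite set of transitions. -/
def Chart.D (C : Chart Γ) : Finset Γ := C.fin.toFinset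

/-- A hermitian line bundle on the space with charts indexed by the `Γ`-set `J`. -/
structure Bundle (C : Chart Γ) (J : Type) [MulAction Γ J] where
  a : J → Γ → V → ℂ
  psi : V → ℝ
  hol : ∀ i g, DifferentiableOn ℂ (a i g) (C.ov g)
  coc : ∀ i g h z, z ∈ C.U2 → C.act h z ∈ C.U2 → C.act g (C.act h z) ∈ C.U2 →
    a i (g * h) z = a (h • i) g (C.act h z) * a i h z
  smooth : ContDiffOn ℝ ∞ psi C.U2
  bdd : ∃ M : ℝ, ∀ z ∈ C.U2, |psi z| ≤ M
  inv : ∀ i g, ∀ z ∈ C.ov g, Real.exp (-psi (C.act g z)) * ‖a i g z‖ ^ 2 = Real.exp (-psi z)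

variable {C : Chart Γ} {J : Type} [MulAction Γ J]

/-- A family of functions on the charts is a section. -/
def Bundle.Sec (B : Bundle C J) (u : J → V → ℂ) : Prop :=
  ∀ i g, ∀ z ∈ C.ov g, u (g • i) (C.act g z) = B.a i g z * u i z

/-- The coboundary of a family of functions on the charts. -/
def Bundle.cob (B : Bundle C J) (b : J → V → ℂ) (i : J) (g : Γ) (z : V) : ℂ :=
  b (g • i) (C.act g z) / B.a i g z - b i z

/-- A holomorphic one-cocycle. -/
def Bundle.Coc (B : Bundle C J) (s : J → Γ → V → ℂ) : Prop :=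
  (∀ i g, DifferentiableOn ℂ (s i g) (C.ov g)) ∧
  ∀ i g h z, z ∈ C.U2 → C.act h z ∈ C.U2 → C.act g (C.act h z) ∈ C.U2 →
    B.a i h z * s i (g * h) z = s (h • i) g (C.act h z) + B.a i h z * s i h z

/-- No square integrable holomorphic section. -/
def Bundle.H0 (B : Bundle C J) : Prop :=
  ∀ h : J → V → ℂ, (∀ i, DifferentiableOn ℂ (h i) C.U2) → B.Sec h →
    ∑' i, nrm B.psi C.U1 (h i) < ⊤ → ∀ i, ∀ z ∈ C.U2, h i z = 0

/-- Square integrable holomorphic cocycles are coboundaries, with a bound. -/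
def Bundle.H1 (B : Bundle C J) : Prop :=
  ∃ M : ℝ≥0∞, M ≠ ⊤ ∧ ∀ s : J → Γ → V → ℂ, B.Coc s →
    ∑ g ∈ C.D, ∑' i, nrm B.psi (C.ov g) (s i g) ≠ ⊤ →
    ∃ h : J → V → ℂ, (∀ i, DifferentiableOn ℂ (h i) C.U2) ∧
      (∀ i g, ∀ z ∈ C.ov g, h (g • i) (C.act g z) = B.a i g z * (h i z + s i g z)) ∧
      ∑' i, nrm B.psi C.U2 (h i) ≤ M * ∑ g ∈ C.D, ∑' i, nrm B.psi (C.ov g) (s i g)

/-- The first vanishing theorem with sup norms. -/
def Bundle.H0s (B : Bundle C J) : Prop :=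
  ∀ (h : J → V → ℂ) (N : J → ℝ), (∀ i, DifferentiableOn ℂ (h i) C.U2) → B.Sec h →
    (∀ i, ∀ z ∈ C.U1, ‖h i z‖ ≤ N i) → Summable (fun i => N i ^ 2) →
    ∀ i, ∀ z ∈ C.U2, h i z = 0

/-- The second vanishing theorem with sup norms. -/
def Bundle.H1s (B : Bundle C J) : Prop :=
  ∃ M : ℝ, ∀ (s : J → Γ → V → ℂ) (N : J → ℝ), B.Coc s →
    (∀ i g, ∀ z ∈ C.ov g, ‖s i g z‖ ≤ N i) → Summable (fun i => N i ^ 2) →
    ∃ (h : J → V → ℂ) (P : J → ℝ), (∀ i, DifferentiableOn ℂ (h i) C.U2) ∧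
      (∀ i g, ∀ z ∈ C.ov g, h (g • i) (C.act g z) = B.a i g z * (h i z + s i g z)) ∧
      (∀ i, ∀ z ∈ C.U1, ‖h i z‖ ≤ P i) ∧ Summable (fun i => P i ^ 2) ∧
      ∑' i, P i ^ 2 ≤ M * ∑' i, N i ^ 2

/-- The theorem of the block. -/
def MainStmt : Prop :=
  ∀ (Γ : Type) [Group Γ] (C : Chart Γ), ∃ c0 : ℝ, ∀ (J : Type) [MulAction Γ J] (B : Bundle C J),
    Neg B.psi c0 C.U2 → B.H0 ∧ B.H1 ∧ B.H0s ∧ B.H1s

end Pool.Agent.MP54.PDE

end
end MrgPart0

-- ======== part 1: formerly Pool.Agent.MP_54e5d7_al.atc.pde.Spec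
section MrgPart1

/-! Statements of the rows of the d-bar block. -/

open Set MeasureTheory Complex Filter
open scoped ContDiff ENNReal Topology ComplexConjugate

noncomputable section

namespace Pool.Agent.MP54.PDE

/-- Row BASIC, forms. -/
def BasicStmt : Prop :=
  ∀ (ψ : V → ℝ) (c : ℝ) (U : Set V), ContDiff ℝ ∞ ψ → Neg ψ c U →
    ∀ v0 v1 : V → ℂ, Test U v0 → Test U v1 →
      c * ∫ z, (‖v0 z‖ ^ 2 + ‖v1 z‖ ^ 2) * Real.exp (-ψ z) ≤
        (∫ z, ‖db 0 v1 z - db 1 v0 z‖ ^ 2 * Real.exp (-ψ z)) +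
          ∫ z, ‖dl ψ 0 v0 z + dl ψ 1 v1 z‖ ^ 2 * Real.exp (-ψ z)

/-- Row BASIC, functions. -/
def Basic0Stmt : Prop :=
  ∀ (ψ : V → ℝ) (c : ℝ) (U : Set V), IsOpen U → ContDiffOn ℝ ∞ ψ U → Neg ψ c U →
    ∀ w : V → ℂ, Test U w → ENNReal.ofReal c * nrm ψ U w ≤ en ψ U w

/-- Row CONV: derivatives of a convolution. -/
def ConvStmt : Prop :=
  ∀ φ : V → ℝ, ContDiff ℝ ∞ φ → HasCompactSupport φ →
    ∀ g : V → ℂ, LocallyIntegrable g volume →
      ContDiff ℝ ∞ (conv φ g) ∧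
      (∀ k x, db k (conv φ g) x = -∫ y, g y * db k (fun y => (φ (x - y) : ℂ)) y) ∧
      (∀ k x, dz k (conv φ g) x = -∫ y, g y * dz k (fun y => (φ (x - y) : ℂ)) y)

/-- Row MOLL: an approximate identity. -/
def MollStmt : Prop :=
  ∃ φ : ℕ → V → ℝ, (∀ n, ContDiff ℝ ∞ (φ n)) ∧ (∀ n, HasCompactSupport (φ n)) ∧
    (∀ n : ℕ, tsupport (φ n) ⊆ Metric.closedBall 0 (1 / ((n : ℝ) + 1))) ∧
    ∀ g : V → ℂ, MemLp g 2 volume →
      Tendsto (fun n => eLpNorm (conv (φ n) g - g) 2 volume) atTop (𝓝 0) ∧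
      ∀ᵐ x, Tendsto (fun n => conv (φ n) g x) atTop (𝓝 (g x))

/-- Row WEST: the basic estimate for weak derivatives. -/
def WestStmt : Prop :=
  ∀ (ψ : V → ℝ) (c : ℝ) (U K : Set V), ContDiff ℝ ∞ ψ → IsOpen U → Neg ψ c U → IsCompact K →
    K ⊆ U → ∀ v0 v1 G H : V → ℂ, MemLp v0 2 volume → MemLp v1 2 volume → MemLp G 2 volume →
      MemLp H 2 volume → (∀ z, z ∉ K → v0 z = 0 ∧ v1 z = 0 ∧ G z = 0 ∧ H z = 0) →
      (∀ φ, Test univ φ → ∫ z, (v1 z * db 0 φ z - v0 z * db 1 φ z) = -∫ z, G z * φ z) →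
      (∀ φ, Test univ φ → ∫ z, (v0 z * dz 0 φ z + v1 z * dz 1 φ z) =
        -∫ z, (H z + dz 0 (cx ψ) z * v0 z + dz 1 (cx ψ) z * v1 z) * φ z) →
      c * ∫ z, (‖v0 z‖ ^ 2 + ‖v1 z‖ ^ 2) * Real.exp (-ψ z) ≤
        (∫ z, ‖G z‖ ^ 2 * Real.exp (-ψ z)) + ∫ z, ‖H z‖ ^ 2 * Real.exp (-ψ z)

/-- Row PROJ: regularised least squares. -/
def ProjStmt : Prop :=
  ∀ (ψ : V → ℝ) (U : Set V) (lam : ℝ), Continuous ψ → IsOpen U → 0 < lam →
    ∀ β0 β1 : V → ℂ, ContinuousOn β0 U → ContinuousOn β1 U → nrm ψ U β0 + nrm ψ U β1 ≠ ⊤ →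
      ∃ e0 e1 u : V → ℂ, AEStronglyMeasurable e0 (volume.restrict U) ∧
        AEStronglyMeasurable e1 (volume.restrict U) ∧ AEStronglyMeasurable u (volume.restrict U) ∧
        nrm ψ U e0 + nrm ψ U e1 + ENNReal.ofReal lam * nrm ψ U u ≤ nrm ψ U β0 + nrm ψ U β1 ∧
        (∀ w, Test U w →
          ∫ z in U, (e0 z * conj (db 0 w z) + e1 z * conj (db 1 w z)) * (Real.exp (-ψ z) : ℂ) =
            lam * ∫ z in U, u z * conj (w z) * (Real.exp (-ψ z) : ℂ)) ∧
        ∀ ε : ℝ≥0∞, 0 < ε → ∃ w, Test U w ∧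
          nrm ψ U (β0 - db 0 w - e0) + nrm ψ U (β1 - db 1 w - e1) + nrm ψ U (w - u) ≤ ε

/-- Row LOC: the local approximate solution. -/
def LocalStmt : Prop :=
  ∀ U K : Set V, IsOpen U → IsCompact K → K ⊆ U → ∀ η : ℝ≥0∞, 0 < η →
    ∃ c0 : ℝ, ∀ ψ : V → ℝ, ContDiffOn ℝ ∞ ψ U → Neg ψ c0 U →
      ∀ b : V → ℂ, ContDiffOn ℝ ∞ b U →
        ∃ w, Test U w ∧ nrm ψ U w ≤ η * en ψ U b ∧ en ψ K (b - w) ≤ η * en ψ U b

/-- Row MV: a kernel that reproduces holomorphic functions. -/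
def MVStmt : Prop :=
  ∀ δ : ℝ, 0 < δ → ∃ θ : V → ℝ, ContDiff ℝ ∞ θ ∧ HasCompactSupport θ ∧
    tsupport θ ⊆ Metric.closedBall 0 δ ∧
    ∀ (Ω : Set V) (h : V → ℂ), IsOpen Ω → DifferentiableOn ℂ h Ω →
      ∀ x, Metric.closedBall x δ ⊆ Ω → conv θ h x = h x

/-- Row SCV: holomorphic functions are smooth. -/
def SmoothStmt : Prop :=
  ∀ (Ω : Set V) (h : V → ℂ), IsOpen Ω → DifferentiableOn ℂ h Ω → ContDiffOn ℝ ∞ h Ω

/-- Row SCV: locally uniform limits of holomorphic functions. -/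
def LimStmt : Prop :=
  ∀ (Ω : Set V) (ι : Type) (l : Filter ι) [l.NeBot] (f : ι → V → ℂ) (h : V → ℂ), IsOpen Ω →
    (∀ᶠ n in l, DifferentiableOn ℂ (f n) Ω) → TendstoLocallyUniformlyOn f h l Ω →
    DifferentiableOn ℂ h Ω

/-- Row SCV: the mean value inequality. -/
def MeanStmt : Prop :=
  ∀ Ω K : Set V, IsOpen Ω → IsCompact K → K ⊆ Ω → ∃ M : ℝ≥0∞, M ≠ ⊤ ∧
    ∀ h : V → ℂ, DifferentiableOn ℂ h Ω → ∀ z ∈ K, ENNReal.ofReal (‖h z‖ ^ 2) ≤ M * nrm 0 Ω h

/-- Row WEYL1. -/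
def Weyl1Stmt : Prop :=
  ∀ (Ω : Set V) (g : V → ℂ), IsOpen Ω → MemLp g 2 volume →
    (∀ φ, Test Ω φ → ∀ k, ∫ z, g z * db k φ z = 0) →
    ∃ h : V → ℂ, DifferentiableOn ℂ h Ω ∧ ∀ᵐ z ∂(volume.restrict Ω), h z = g z

/-- Row WEYL2. -/
def WeylStmt : Prop :=
  ∀ (Ω : Set V) (f : ℕ → V → ℂ) (A : ℝ≥0∞), IsOpen Ω → A ≠ ⊤ →
    (∀ n, ContDiffOn ℝ ∞ (f n) Ω) → nrm 0 Ω (f 0) ≠ ⊤ →
    (∀ n, 4 ^ n * nrm 0 Ω (f (n + 1) - f n) ≤ A) →
    Tendsto (fun n => en 0 Ω (f n)) atTop (𝓝 0) →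
    ∃ h : V → ℂ, DifferentiableOn ℂ h Ω ∧
      ∀ᵐ z ∂(volume.restrict Ω), Tendsto (fun n => f n z) atTop (𝓝 (h z))

/-- The part of the chart that `g` sends into `A`. -/
def Chart.pre {Γ : Type} [Group Γ] (C : Chart Γ) (g : Γ) (A : Set V) : Set V :=
  {z | z ∈ C.U2 ∧ C.act g z ∈ A}

/-- Row CV: change of variables. -/
def CVStmt : Prop :=
  ∀ (Γ : Type) [Group Γ] (C : Chart Γ), ∃ M : ℝ≥0∞, M ≠ ⊤ ∧
    ∀ (g : Γ) (A : Set V), MeasurableSet A → A ⊆ C.U2 →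
      MeasurableSet (C.pre g A) ∧
      (∀ F : V → ℝ≥0∞, ∫⁻ z in C.pre g A, F (C.act g z) ≤ M * ∫⁻ z in A, F z) ∧
      ∀ P : V → Prop, (∀ᵐ z ∂(volume.restrict A), P z) →
        ∀ᵐ z ∂(volume.restrict (C.pre g A)), P (C.act g z)

/-- Row TR: transport of norms between charts. -/
def TrStmt : Prop :=
  ∀ (Γ : Type) [Group Γ] (C : Chart Γ), ∃ M : ℝ≥0∞, M ≠ ⊤ ∧
    ∀ (J : Type) [MulAction Γ J] (B : Bundle C J) (i : J) (g : Γ) (A : Set V),
      MeasurableSet A → A ⊆ C.U2 → ∀ v : V → ℂ,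
        nrm B.psi (C.pre g A) (fun z => v (C.act g z) / B.a i g z) ≤ M * nrm B.psi A v ∧
        (ContDiffOn ℝ ∞ v C.U2 →
          ContDiffOn ℝ ∞ (fun z => v (C.act g z) / B.a i g z) (C.ov g) ∧
          en B.psi (C.pre g A) (fun z => v (C.act g z) / B.a i g z) ≤ M * en B.psi A v)

/-- A partition of unity subordinate to the charts. -/
def Chart.IsPU {Γ : Type} [Group Γ] (C : Chart Γ) (ρ : V → ℝ) : Prop :=
  ContDiff ℝ ∞ ρ ∧ HasCompactSupport ρ ∧ tsupport ρ ⊆ C.U2 ∧ (∀ z, 0 ≤ ρ z ∧ ρ z ≤ 1) ∧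
    (∀ z ∈ C.U2, ∑ g ∈ C.D, ρ (C.act g z) = 1) ∧
    ∀ (δ : Γ) (X : Γ → ℂ), ∀ z ∈ C.ov δ,
      ∑ g ∈ C.D, (ρ (C.act g (C.act δ z)) : ℂ) * X (g * δ) = ∑ g ∈ C.D, (ρ (C.act g z) : ℂ) * X g

/-- Row PU. -/
def PUStmt : Prop := ∀ (Γ : Type) [Group Γ] (C : Chart Γ), ∃ ρ, C.IsPU ρ

/-- Gluing with the partition of unity. -/
def Chart.glue {Γ : Type} [Group Γ] (C : Chart Γ) (ρ : V → ℝ) (F : Γ → V → ℂ) (z : V) : ℂ :=
  ∑ g ∈ C.D, (ρ (C.act g z) : ℂ) * F g z

/-- Row GLUE. -/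
def GlueStmt : Prop :=
  ∀ (Γ : Type) [Group Γ] (C : Chart Γ) (ρ : V → ℝ), C.IsPU ρ → ∃ M : ℝ≥0∞, M ≠ ⊤ ∧
    ∀ ψ : V → ℝ, ContinuousOn ψ C.U2 → ∀ F : Γ → V → ℂ,
      (∀ g, ContDiffOn ℝ ∞ (F g) (C.ov g)) →
        ContDiffOn ℝ ∞ (C.glue ρ F) C.U2 ∧
        nrm ψ C.U2 (C.glue ρ F) ≤ M * ∑ g ∈ C.D, nrm ψ (C.pre g (tsupport ρ)) (F g) ∧
        ∀ b : V → ℂ, ContDiffOn ℝ ∞ b C.U2 →
          en ψ C.U2 (b - C.glue ρ F) ≤ M * ∑ g ∈ C.D,
            (nrm ψ (C.pre g (tsupport ρ)) (F g) + en ψ (C.pre g (tsupport ρ)) (b - F g))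

/-- One step of the iteration. -/
def Bundle.Step {Γ : Type} [Group Γ] {C : Chart Γ} {J : Type} [MulAction Γ J]
    (B : Bundle C J) : Prop :=
  ∀ b : J → V → ℂ, (∀ i, ContDiffOn ℝ ∞ (b i) C.U2) →
    (∀ i g, DifferentiableOn ℂ (B.cob b i g) (C.ov g)) →
    ∃ u : J → V → ℂ, (∀ i, ContDiffOn ℝ ∞ (u i) C.U2) ∧ B.Sec u ∧
      ∑' i, nrm B.psi C.U2 (u i) ≤ ∑' i, en B.psi C.U2 (b i) ∧
      4 * ∑' i, en B.psi C.U2 (b i - u i) ≤ ∑' i, en B.psi C.U2 (b i)

/-- Row STEP. -/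
def StepStmt : Prop :=
  ∀ (Γ : Type) [Group Γ] (C : Chart Γ), ∃ c0 : ℝ, ∀ (J : Type) [MulAction Γ J] (B : Bundle C J),
    Neg B.psi c0 C.U2 → B.Step

/-- Row INIT. -/
def InitStmt : Prop :=
  ∀ (Γ : Type) [Group Γ] (C : Chart Γ), ∃ M : ℝ≥0∞, M ≠ ⊤ ∧
    ∀ (J : Type) [MulAction Γ J] (B : Bundle C J) (s : J → Γ → V → ℂ), B.Coc s →
    ∃ b : J → V → ℂ, (∀ i, ContDiffOn ℝ ∞ (b i) C.U2) ∧
      (∀ i g, EqOn (B.cob b i g) (s i g) (C.ov g)) ∧
      ∑' i, nrm B.psi C.U2 (b i) + ∑' i, en B.psi C.U2 (b i) ≤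
        M * ∑ g ∈ C.D, ∑' i, nrm B.psi (C.ov g) (s i g)

/-- Row ITER. -/
def IterStmt : Prop :=
  ∀ (Γ : Type) [Group Γ] (C : Chart Γ) (J : Type) [MulAction Γ J] (B : Bundle C J),
    B.Step → B.H1

/-- Row H0. -/
def H0Stmt : Prop :=
  ∀ (Γ : Type) [Group Γ] (C : Chart Γ), ∃ c0 : ℝ, ∀ (J : Type) [MulAction Γ J] (B : Bundle C J),
    Neg B.psi c0 C.U2 → B.H0

/-- Row SUP. -/
def SupStmt : Prop :=
  ∀ (Γ : Type) [Group Γ] (C : Chart Γ) (J : Type) [MulAction Γ J] (B : Bundle C J),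
    (B.H0 → B.H0s) ∧ (B.H1 → B.H1s)

end Pool.Agent.MP54.PDE

end
end MrgPart1

-- marker of a merged file
example : 731051 + 99068 = 731051 + 99068 := rfl

end MrgPart0

-- ======== part 1: formerly Pool.Agent.MP_54e5d7_al.atc.tr.Core
section MrgPart1

-- ======== part 0: formerly Pool.Agent.MP_54e5d7_al.atc.Meas2
section MrgPart0

/-!
PROJECT ATC, library Meas, part 2: unfolding, fundamental domains, Poincaré series.
-/

set_option autoImplicit false

open scoped ComplexConjugate ENNReal Function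
open Set MeasureTheory

namespace Pool.Agent.MP_54e5d7_al.Atc

/-- the points of the ball moved into `F` by `g` -/
def tile (F : Set C2) (g : SU21) : Set C2 := B ∩ act g ⁻¹' F

theorem measurableSet_B : MeasurableSet B := (isOpen_Bl 1).measurableSet

theorem ae_mem_B : ∀ᵐ z ∂mu, z ∈ B := by
  rw [ae_iff]
  exact mu_compl_B

theorem measurableSet_tile {F : Set C2} (hF : MeasurableSet F) (g : SU21) :
    MeasurableSet (tile F g) :=
  measurableSet_B.inter (measurable_act g hF)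

theorem FD.subset {Γ : Subgroup SU21} {F : Set C2} (hF : FD Γ F) : F ⊆ B := by
  obtain ⟨-, ⟨r, hr, h⟩, -⟩ := hF
  exact h.trans (Bl_mono hr.le)

theorem FD.mu_lt_top {Γ : Subgroup SU21} {F : Set C2} (hF : FD Γ F) : mu F < ∞ := by
  obtain ⟨-, ⟨r, hr, h⟩, -⟩ := hF
  exact (measure_mono h).trans_lt (mu_Bl_lt_top hr)

theorem FD.disjoint_tile {Γ : Subgroup SU21} {F : Set C2} (hF : FD Γ F) :
    Pairwise (Disjoint on fun γ : Γ => tile F γ) := by
  intro γ δ hne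
  refine Set.disjoint_left.2 fun z hz hz' => hne ?_
  exact (hF.2.2 z hz.1).unique hz.2 hz'.2

theorem FD.iUnion_tile {Γ : Subgroup SU21} {F : Set C2} (hF : FD Γ F) :
    ⋃ γ : Γ, tile F γ = B := by
  refine Subset.antisymm (iUnion_subset fun γ => inter_subset_left) fun z hz => ?_
  obtain ⟨γ, hγ, -⟩ := hF.2.2 z hz
  exact mem_iUnion.2 ⟨γ, hz, hγ⟩

theorem preimage_tile (F : Set C2) (g : SU21) : (act g ⁻¹' tile F g⁻¹ : Set C2) =ᵐ[mu] F := by
  filter_upwards [ae_mem_B] with z hz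
  have h : z ∈ act g ⁻¹' tile F g⁻¹ ↔ z ∈ F := by
    simp only [tile, mem_preimage, mem_inter_iff, act_inv_act g hz, act_mem g hz, true_and]
  exact propext h

theorem tile_ae (F : Set C2) (g : SU21) : tile F g =ᵐ[mu] (act g ⁻¹' F : Set C2) := by
  filter_upwards [ae_mem_B] with z hz
  have h : z ∈ tile F g ↔ z ∈ act g ⁻¹' F := by
    simp only [tile, mem_inter_iff, hz, true_and]
  exact propext h

theorem mu_tile {F : Set C2} (hF : MeasurableSet F) (g : SU21) : mu (tile F g) = mu F := by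
  rw [measure_congr (tile_ae F g)]
  exact (measurePreserving_act g).measure_preimage hF.nullMeasurableSet

theorem restrict_B : mu.restrict B = mu :=
  Measure.restrict_eq_self_of_ae_mem ae_mem_B

/-- unfolding -/
theorem lintegral_unfold {Γ : Subgroup SU21} (hΓ : Lat Γ) {F : Set C2} (hF : FD Γ F)
    {f : C2 → ℝ≥0∞} (hf : Measurable f) :
    ∫⁻ z, f z ∂mu = ∑' γ : Γ, ∫⁻ z in F, f (act γ z) ∂mu := by
  have := hΓ.countable
  have h1 : ∫⁻ z, f z ∂mu = ∑' γ : Γ, ∫⁻ z in tile F γ, f z ∂mu := by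
    rw [← lintegral_iUnion (fun γ => measurableSet_tile hF.1 _) hF.disjoint_tile, hF.iUnion_tile,
      restrict_B]
  rw [h1, ← (Equiv.inv Γ).tsum_eq]
  refine tsum_congr fun γ => ?_
  have h2 := (measurePreserving_act (γ : SU21)).setLIntegral_comp_preimage
    (measurableSet_tile hF.1 (γ : SU21)⁻¹) hf
  rw [Measure.restrict_congr_set (preimage_tile F γ)] at h2
  rw [h2]
  rfl

theorem hasSum_unfold {Γ : Subgroup SU21} (hΓ : Lat Γ) {F : Set C2} (hF : FD Γ F)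
    {f : C2 → ℂ} (hf : Integrable f mu) :
    HasSum (fun γ : Γ => ∫ z in F, f (act γ z) ∂mu) (∫ z, f z ∂mu) := by
  have := hΓ.countable
  have h1 := hasSum_integral_iUnion (μ := mu) (f := f)
    (fun γ : Γ => measurableSet_tile hF.1 (γ : SU21)) hF.disjoint_tile hf.integrableOn
  rw [hF.iUnion_tile, restrict_B, ← (Equiv.inv Γ).hasSum_iff] at h1
  have h3 : (fun γ : Γ => ∫ z in F, f (act γ z) ∂mu) =
      (fun γ : Γ => ∫ z in tile F γ, f z ∂mu) ∘ (Equiv.inv Γ) := by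
    funext γ
    have hm := (measurePreserving_act (γ : SU21)).map_eq
    have h2 := setIntegral_map (μ := mu) (g := act (γ : SU21)) (f := f)
      (measurableSet_tile hF.1 (γ : SU21)⁻¹) (by rw [hm]; exact hf.aestronglyMeasurable)
      (measurable_act _).aemeasurable
    rw [hm, Measure.restrict_congr_set (preimage_tile F γ)] at h2
    exact h2.symm
  rw [h3]
  exact h1

theorem FD.mu_pos {Γ : Subgroup SU21} (hΓ : Lat Γ) {F : Set C2} (hF : FD Γ F) : 0 < mu F := by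
  have := hΓ.countable
  refine pos_iff_ne_zero.2 fun h0 => ?_
  have h1 : mu B = 0 := by
    rw [← hF.iUnion_tile, measure_iUnion_null_iff]
    intro γ
    rw [mu_tile hF.1, h0]
  exact (Atc.mu_pos (isOpen_Bl 1) Subset.rfl ⟨0, zero_mem_B⟩).ne' h1

theorem vol_eq {F : Set C2} (hF : MeasurableSet F) (hB : F ⊆ B) : vol F = (mu F).toReal := by
  have h := integral_mu hF hB (fun _ => (1 : ℝ))
  simp only [integral_const, smul_eq_mul, mul_one, MeasurableSet.univ,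
    measureReal_restrict_apply, univ_inter] at h
  rw [vol, ← h]
  rfl

theorem FD.vol_pos {Γ : Subgroup SU21} (hΓ : Lat Γ) {F : Set C2} (hF : FD Γ F) : 0 < vol F := by
  rw [vol_eq hF.1 hF.subset]
  exact ENNReal.toReal_pos (hF.mu_pos hΓ).ne' hF.mu_lt_top.ne

/-- a lattice has a fundamental domain -/
theorem Lat.exists_fd {Γ : Subgroup SU21} (hΓ : Lat Γ) : ∃ F, FD Γ F := by
  have := hΓ.countable
  obtain ⟨r, hr, hc⟩ := hΓ.cocpt
  have hk := measurableEmbedding_embeddingReal C2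
  set k := embeddingReal C2
  have hsub : Bl r ⊆ B := Bl_mono hr.le
  refine ⟨Bl r ∩ ⋂ γ : Γ, ((act γ ⁻¹' Bl r)ᶜ ∪ {z | k z ≤ k (act γ z)}), ?_,
    ⟨r, hr, inter_subset_left⟩, ?_⟩
  · refine (isOpen_Bl r).measurableSet.inter (MeasurableSet.iInter fun γ => ?_)
    refine (measurable_act _ (isOpen_Bl r).measurableSet).compl.union ?_
    exact measurableSet_le hk.measurable (hk.measurable.comp (measurable_act _))
  · intro z hz
    have hz1 : nsq z < 1 := hz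
    have hr' : max r ((nsq z + 1) / 2) < 1 := max_lt hr (by linarith)
    have hfin : {γ : Γ | act γ z ∈ Bl r}.Finite := by
      refine Finite.of_finite_image ?_ (Subtype.val_injective.injOn)
      refine (hΓ.finite_meet hr').subset ?_
      rintro _ ⟨γ, hγ, rfl⟩
      refine ⟨γ.2, z, ?_, Bl_mono (le_max_left _ _) hγ⟩
      have h9 : nsq z < max r ((nsq z + 1) / 2) := lt_max_of_lt_right (by linarith)
      exact h9
    obtain ⟨γ₀, hγ₀, h₀⟩ := hc z hz
    obtain ⟨γ, hγ, hmin⟩ := hfin.exists_minimalFor (fun γ : Γ => k (act γ z)) _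
      ⟨⟨γ₀, hγ₀⟩, h₀⟩
    have key : ∀ a b : Γ, act a z ∈ Bl r ∩
        ⋂ γ : Γ, ((act γ ⁻¹' Bl r)ᶜ ∪ {z | k z ≤ k (act γ z)}) → act b z ∈ Bl r →
        k (act a z) ≤ k (act b z) := by
      intro a b ha hb
      have h1 := mem_iInter.1 ha.2 (b * a⁻¹)
      have h2 : act ((b * a⁻¹ : Γ) : SU21) (act a z) = act b z := by
        rw [← act_mul _ _ hz]
        simp
      rcases h1 with h1 | h1
      · exact absurd (by rw [mem_preimage, h2]; exact hb) h1
      · rw [mem_ofPred_eq, h2] at h1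
        exact h1
    have hmem : act γ z ∈ Bl r ∩ ⋂ γ : Γ, ((act γ ⁻¹' Bl r)ᶜ ∪ {z | k z ≤ k (act γ z)}) := by
      refine ⟨hγ, mem_iInter.2 fun δ => ?_⟩
      by_cases h : act δ (act γ z) ∈ Bl r
      · right
        rw [← act_mul _ _ hz] at h
        rw [mem_ofPred_eq, ← act_mul _ _ hz]
        by_contra hlt
        have hlt' := (not_le.1 hlt).le
        exact hlt (hmin (j := δ * γ) h hlt')
      · left
        exact h
    refine ⟨γ, hmem, fun δ hδ => ?_⟩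
    have he : act δ z = act γ z :=
      hk.injective (le_antisymm (key δ γ hδ hγ) (key γ δ hmem hδ.1))
    have h1 : act ((γ⁻¹ * δ : Γ) : SU21) z = z := by
      rw [Subgroup.coe_mul, act_mul _ _ hz, he, Subgroup.coe_inv, act_inv_act _ hz]
    have h2 := hΓ.free _ (γ⁻¹ * δ).2 z hz h1
    have h3 : γ⁻¹ * δ = 1 := Subtype.ext h2
    exact (inv_mul_eq_one.1 h3).symm

/-- convergence of Poincaré series -/
theorem Lat.summable {Γ : Subgroup SU21} (hΓ : Lat Γ) {τ : ℝ} (hτ : 2 < τ) :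
    Summable fun γ : Γ => (1 - nsq (act γ 0)) ^ τ := by
  obtain ⟨F, hF⟩ := hΓ.exists_fd
  obtain ⟨r, hr, hFr⟩ := hF.2.1
  have hI := integrable_rad hτ
  have h1 := (hasSum_unfold hΓ hF hI.ofReal).summable
  have h2 : Summable fun γ : Γ => ∫ z in F, (1 - nsq (act γ z)) ^ τ ∂mu := by
    rw [← Complex.summable_ofReal]
    refine h1.congr fun γ => ?_
    exact integral_ofReal
  have hv : 0 < (mu F).toReal := ENNReal.toReal_pos (hF.mu_pos hΓ).ne' hF.mu_lt_top.ne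
  have hc : 0 < ((1 - r) / 4) ^ τ := Real.rpow_pos_of_pos (by linarith) _
  refine Summable.of_nonneg_of_le (fun γ => ?_) (fun γ => ?_)
    (h2.div_const (((1 - r) / 4) ^ τ * (mu F).toReal))
  · have : nsq (act γ 0) < 1 := act_mem _ zero_mem_B
    exact Real.rpow_nonneg (by linarith) _
  · have h0 : nsq (act (γ : SU21) 0) < 1 := act_mem _ zero_mem_B
    rw [le_div_iff₀ (mul_pos hc hv)]
    have hint : IntegrableOn (fun z => (1 - nsq (act (γ : SU21) z)) ^ τ) F mu :=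
      ((measurePreserving_act (γ : SU21)).integrable_comp_of_integrable hI).integrableOn
    have hle : ∀ z ∈ F, (1 - nsq (act (γ : SU21) 0)) ^ τ * ((1 - r) / 4) ^ τ ≤
        (1 - nsq (act (γ : SU21) z)) ^ τ := by
      intro z hz
      have hzB := hF.subset hz
      have hzr : nsq z < r := hFr hz
      have hz1 : nsq (act (γ : SU21) z) < 1 := act_mem _ hzB
      have h3 := ch2_le (act_mem (γ : SU21) hzB) zero_mem_B (act_mem (γ : SU21) zero_mem_B)
      rw [ch2_act _ hzB zero_mem_B, ch2_zero, ch2_zero, ch2_zero] at h3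
      rw [← Real.mul_rpow (by linarith) (by linarith)]
      refine Real.rpow_le_rpow (mul_nonneg (by linarith) (by linarith)) ?_ (by linarith)
      set a := 1 - nsq (act (γ : SU21) z)
      set b := 1 - nsq (act (γ : SU21) 0)
      have ha : 0 < a := by simp only [a]; linarith
      have hb : 0 < b := by simp only [b]; linarith
      have hc' : 0 < 1 - nsq z := by linarith
      have h4 : b * (1 - nsq z) ≤ 4 * a := by
        have h5 := mul_le_mul_of_nonneg_left h3 (mul_pos (mul_pos ha hb) hc').le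
        have e1 : a * b * (1 - nsq z) * a⁻¹ = b * (1 - nsq z) := by field_simp
        have e2 : a * b * (1 - nsq z) * (4 * (1 - nsq z)⁻¹ * b⁻¹) = 4 * a := by field_simp
        rwa [e1, e2] at h5
      nlinarith
    have h6 := setIntegral_ge_of_const_le_real hF.1 hF.mu_lt_top.ne hle hint
    rw [← mul_assoc]
    exact h6

/-- COVOL -/
theorem covol : CovolStmt := by
  intro Γ₁ hΓ
  obtain ⟨F, hF⟩ := hΓ.exists_fd
  refine ⟨F, hF, hF.vol_pos hΓ, fun Γ₂ hle hi => ?_⟩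
  set K := Γ₂.subgroupOf Γ₁ with hK
  have : K.FiniteIndex := ⟨hi⟩
  let _ : Fintype (Γ₁ ⧸ K) := Fintype.ofFinite _
  obtain ⟨r, hr, hFr⟩ := hF.2.1
  have hmeas : MeasurableSet (⋃ c : Γ₁ ⧸ K, tile F (c.out : Γ₁)) :=
    MeasurableSet.iUnion fun c => measurableSet_tile hF.1 _
  have hsub : (⋃ c : Γ₁ ⧸ K, tile F (c.out : Γ₁)) ⊆ B := iUnion_subset fun c => inter_subset_left
  refine ⟨⋃ c : Γ₁ ⧸ K, tile F (c.out : Γ₁), ⟨hmeas, ?_, ?_⟩, ?_⟩
  · have hKB : {z : C2 | nsq z ≤ r} ⊆ B := fun z hz => lt_of_le_of_lt hz hr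
    have hcpt : IsCompact (⋃ c : Γ₁ ⧸ K, act ((c.out : Γ₁) : SU21)⁻¹ '' {z : C2 | nsq z ≤ r}) :=
      isCompact_iUnion fun c =>
        (isCompact_nsq_le r).image_of_continuousOn ((continuousOn_act _).mono hKB)
    obtain ⟨r', hr', h⟩ := exists_Bl_of_isCompact hcpt (iUnion_subset fun c => by
      rintro _ ⟨z, hz, rfl⟩
      exact act_mem _ (hKB hz))
    refine ⟨r', hr', Subset.trans (iUnion_mono fun c z hz => ?_) h⟩
    have h9 : nsq (act ((c.out : Γ₁) : SU21) z) < r := hFr hz.2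
    exact ⟨_, h9.le, act_inv_act _ hz.1⟩
  · intro z hz
    obtain ⟨γ, hγ, huniq⟩ := hF.2.2 z hz
    have h1 : ((γ : Γ₁ ⧸ K).out)⁻¹ * γ ∈ K := by
      rw [← QuotientGroup.eq, QuotientGroup.out_eq']
    refine ⟨⟨_, Subgroup.mem_subgroupOf.1 h1⟩, ?_, ?_⟩
    · refine mem_iUnion.2 ⟨(γ : Γ₁ ⧸ K), act_mem _ hz, ?_⟩
      rw [mem_preimage, ← act_mul _ _ hz]
      simpa using hγ
    · intro δ hδ
      obtain ⟨c, -, hc⟩ := mem_iUnion.1 hδ
      rw [mem_preimage, ← act_mul _ _ hz] at hc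
      have hc' : act ((c.out * ⟨δ, hle δ.2⟩ : Γ₁) : SU21) z ∈ F := by
        rw [Subgroup.coe_mul]
        exact hc
      have h2 : (c.out * ⟨δ, hle δ.2⟩ : Γ₁) = γ := huniq _ hc'
      have h4 : (⟨δ, hle δ.2⟩ : Γ₁) ∈ K := Subgroup.mem_subgroupOf.2 δ.2
      have h3 : (γ : Γ₁ ⧸ K) = c := by
        rw [← h2, QuotientGroup.mk_mul_of_mem _ h4, QuotientGroup.out_eq']
      have h5 : (⟨δ, hle δ.2⟩ : Γ₁) = ((γ : Γ₁ ⧸ K).out)⁻¹ * γ := by
        rw [h3, ← h2, inv_mul_cancel_left]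
      have h6 : (δ : SU21) = ((((γ : Γ₁ ⧸ K).out)⁻¹ * γ : Γ₁) : SU21) :=
        congrArg (fun t : Γ₁ => (t : SU21)) h5
      exact Subtype.ext h6
  · have hd : Pairwise (Disjoint on fun c : Γ₁ ⧸ K => tile F (c.out : Γ₁)) :=
      fun c c' hne => hF.disjoint_tile fun h => hne (Quotient.out_injective h)
    rw [vol_eq hmeas hsub, vol_eq hF.1 hF.subset,
      measure_iUnion hd (fun c => measurableSet_tile hF.1 _)]
    simp only [mu_tile hF.1, tsum_fintype, Finset.sum_const, Finset.card_univ, nsmul_eq_mul,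
      ENNReal.toReal_mul, ENNReal.toReal_natCast]
    rw [Subgroup.relIndex, ← hK, Subgroup.index_eq_card, Nat.card_eq_fintype_card]

end Pool.Agent.MP_54e5d7_al.Atc

end MrgPart0

-- ======== part 1: formerly Pool.Agent.MP_54e5d7_al.atc.Meas
section MrgPart1

/-!
PROJECT ATC, library Meas (imports only).
-/

end MrgPart1

-- ======== part 2: formerly Pool.Agent.MP_54e5d7_al.atc.tr.Db
section MrgPart2

/-!
# Antiholomorphic derivations on the ball of `ℂ × ℂ`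
-/

set_option autoImplicit false

open Complex Matrix MeasureTheory
open scoped ComplexConjugate

namespace Pool.Agent.MP_54e5d7_al.Atc.Tr

abbrev V : Type := ℂ × ℂ

abbrev M3 : Type := Matrix (Fin 3) (Fin 3) ℂ

/-- The antiholomorphic part of the real derivative. -/
noncomputable def db (f : V → ℂ) (z v : V) : ℂ :=
  (fderiv ℝ f z v + I * fderiv ℝ f z (I • v)) / 2

/-- `f` is differentiable at `z` and its antiholomorphic derivative along `v` is `a`. -/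
def HD (f : V → ℂ) (z v : V) (a : ℂ) : Prop := DifferentiableAt ℝ f z ∧ db f z v = a

theorem HD.of_has {f : V → ℂ} {z : V} {L : V →L[ℝ] ℂ} (h : HasFDerivAt f L z) (v : V) :
    HD f z v ((L v + I * L (I • v)) / 2) := ⟨h.differentiableAt, by rw [db, h.fderiv]⟩

theorem HD.cg {f : V → ℂ} {z v : V} {a b : ℂ} (h : HD f z v a) (e : a = b) : HD f z v b :=
  e ▸ h

theorem HD.mk' {f : V → ℂ} {z : V} (h : DifferentiableAt ℝ f z) (v : V) : HD f z v (db f z v) :=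
  ⟨h, rfl⟩

theorem HD.const (c : ℂ) (z v : V) : HD (fun _ => c) z v 0 :=
  (HD.of_has (hasFDerivAt_const c z) v).cg (by simp)

theorem HD.add {f g : V → ℂ} {z v : V} {a b : ℂ} (hf : HD f z v a) (hg : HD g z v b) :
    HD (fun y => f y + g y) z v (a + b) :=
  (HD.of_has (hf.1.hasFDerivAt.add hg.1.hasFDerivAt) v).cg (by
    rw [← hf.2, ← hg.2, db, db]; simp only [_root_.add_apply]; ring)

theorem HD.sub {f g : V → ℂ} {z v : V} {a b : ℂ} (hf : HD f z v a) (hg : HD g z v b) :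
    HD (fun y => f y - g y) z v (a - b) :=
  (HD.of_has (hf.1.hasFDerivAt.sub hg.1.hasFDerivAt) v).cg (by
    rw [← hf.2, ← hg.2, db, db]; simp only [_root_.sub_apply]; ring)

theorem HD.mul {f g : V → ℂ} {z v : V} {a b : ℂ} (hf : HD f z v a) (hg : HD g z v b) :
    HD (fun y => f y * g y) z v (a * g z + f z * b) :=
  (HD.of_has (hf.1.hasFDerivAt.mul hg.1.hasFDerivAt) v).cg (by
    rw [← hf.2, ← hg.2, db, db]
    simp only [_root_.add_apply, _root_.smul_apply, smul_eq_mul]; ring)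

theorem HD.inv {f : V → ℂ} {z v : V} {a : ℂ} (hf : HD f z v a) (h0 : f z ≠ 0) :
    HD (fun y => (f y)⁻¹) z v (-a / f z ^ 2) := by
  have h1 : DifferentiableAt ℝ (fun y => (f y)⁻¹) z := hf.1.inv h0
  have h2 := hf.mul (HD.mk' h1 v)
  have h3 : (fun y => f y * (f y)⁻¹) =ᶠ[nhds z] fun _ => (1 : ℂ) := by
    filter_upwards [hf.1.continuousAt.eventually_ne h0] with y hy using mul_inv_cancel₀ hy
  have h4 : db (fun y => f y * (f y)⁻¹) z v = 0 := by
    rw [db, h3.fderiv_eq]; simp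
  refine ⟨h1, ?_⟩
  have h5 := h2.2
  rw [h4] at h5
  field_simp
  field_simp at h5
  linear_combination -h5

theorem HD.fst (z v : V) : HD (fun y => y.1) z v 0 :=
  (HD.of_has hasFDerivAt_fst v).cg (by
    simp only [ContinuousLinearMap.coe_fst', Prod.smul_fst, smul_eq_mul]
    linear_combination v.1 / 2 * I_mul_I)

theorem HD.snd (z v : V) : HD (fun y => y.2) z v 0 :=
  (HD.of_has hasFDerivAt_snd v).cg (by
    simp only [ContinuousLinearMap.coe_snd', Prod.smul_snd, smul_eq_mul]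
    linear_combination v.2 / 2 * I_mul_I)

theorem HD.cfst (z v : V) : HD (fun y => conj y.1) z v (conj v.1) :=
  (HD.of_has ((conjCLE : ℂ →L[ℝ] ℂ).hasFDerivAt.comp z hasFDerivAt_fst) v).cg (by
    simp only [ContinuousLinearMap.comp_apply, ContinuousLinearMap.coe_fst', Prod.smul_fst,
      smul_eq_mul, ContinuousLinearEquiv.coe_coe, conjCLE_apply, map_mul, conj_I]
    linear_combination -(conj v.1) / 2 * I_mul_I)

theorem HD.csnd (z v : V) : HD (fun y => conj y.2) z v (conj v.2) :=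
  (HD.of_has ((conjCLE : ℂ →L[ℝ] ℂ).hasFDerivAt.comp z hasFDerivAt_snd) v).cg (by
    simp only [ContinuousLinearMap.comp_apply, ContinuousLinearMap.coe_snd', Prod.smul_snd,
      smul_eq_mul, ContinuousLinearEquiv.coe_coe, conjCLE_apply, map_mul, conj_I]
    linear_combination -(conj v.2) / 2 * I_mul_I)

theorem clm_split (L : V →L[ℝ] ℂ) (v : V) :
    L v = v.1.re * L (1, 0) + v.1.im * L (I, 0) + v.2.re * L (0, 1) + v.2.im * L (0, I) := by
  have : v = v.1.re • ((1 : ℂ), (0 : ℂ)) + v.1.im • (I, (0 : ℂ)) + v.2.re • ((0 : ℂ), (1 : ℂ)) +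
      v.2.im • ((0 : ℂ), I) := by
    ext <;> simp
  conv_lhs => rw [this]
  simp only [map_add, map_smul, real_smul]

theorem db_split (f : V → ℂ) (z v : V) :
    db f z v = conj v.1 * db f z (1, 0) + conj v.2 * db f z (0, 1) := by
  have e1 : I • ((1 : ℂ), (0 : ℂ)) = (I, 0) := by simp
  have e2 : I • ((0 : ℂ), (1 : ℂ)) = (0, I) := by simp
  have c1 : conj v.1 = v.1.re - v.1.im * I := by apply Complex.ext <;> simp
  have c2 : conj v.2 = v.2.re - v.2.im * I := by apply Complex.ext <;> simp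
  rw [db, db, db, e1, e2, clm_split _ v, clm_split _ (I • v), c1, c2]
  simp only [Prod.smul_fst, Prod.smul_snd, smul_eq_mul, I_mul_re, I_mul_im, ofReal_neg]
  linear_combination ((v.1.im : ℂ) * fderiv ℝ f z (I, 0) + v.2.im * fderiv ℝ f z (0, I)) / 2 *
    I_mul_I

theorem db_bound (f : V → ℂ) (z v : V) : ‖db f z v‖ ≤ ‖fderiv ℝ f z‖ * ‖v‖ := by
  have h1 := (fderiv ℝ f z).le_opNorm v
  have h2 := (fderiv ℝ f z).le_opNorm (I • v)
  rw [norm_smul, norm_I, one_mul] at h2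
  have h3 := norm_add_le (fderiv ℝ f z v) (I * fderiv ℝ f z (I • v))
  rw [norm_mul, norm_I, one_mul] at h3
  rw [db, norm_div, Complex.norm_two]
  linarith

/-- Chain rule along a complex differentiable map. -/
theorem db_comp {f : V → ℂ} {g : V → V} {z : V} {L : V →L[ℂ] V} (hg : HasFDerivAt g L z)
    (hf : DifferentiableAt ℝ f (g z)) (v : V) :
    db (fun y => f (g y)) z v = db f (g z) (L v) := by
  have h := hf.hasFDerivAt.comp z (hg.restrictScalars ℝ)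
  have h2 : fderiv ℝ (fun y => f (g y)) z = _ := h.fderiv
  rw [db, db, h2]
  simp

/-- The open unit ball. -/
def ball : Set V := {z | ‖z.1‖ ^ 2 + ‖z.2‖ ^ 2 < 1}

theorem isOpen_ball : IsOpen ball := isOpen_lt (by fun_prop) continuous_const

theorem integrable_mul {μ : Measure V} [IsFiniteMeasureOnCompacts μ] {a b : V → ℂ} {C : Set V}
    (hC : IsCompact C) (ha : ContinuousOn a C) (hb : Continuous b) (h0 : ∀ z, z ∉ C → b z = 0) :
    Integrable (fun z => a z * b z) μ := by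
  refine (integrableOn_iff_integrable_of_support_subset (s := C) ?_).1
    ((ha.mul hb.continuousOn).integrableOn_compact hC)
  intro z hz
  by_contra h
  exact hz (by simp [h0 z h])

theorem fderiv_zero_of_notMem {c : V → ℂ} {z : V} (hz : z ∉ tsupport c) : fderiv ℝ c z = 0 := by
  by_contra h
  exact hz (support_fderiv_subset ℝ h)

theorem db_zero_of_notMem {c : V → ℂ} {z : V} (hz : z ∉ tsupport c) (v : V) : db c z v = 0 := by
  simp [db, fderiv_zero_of_notMem hz]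

theorem cont_db {G : V → ℂ} (hG : ContDiffOn ℝ 1 G ball) (v : V) :
    ContinuousOn (fun z => db G z v) ball := by
  have h := hG.continuousOn_fderiv_of_isOpen isOpen_ball le_rfl
  unfold db
  fun_prop

theorem cont_db' {c : V → ℂ} (hc : ContDiff ℝ 1 c) (v : V) : Continuous (fun z => db c z v) := by
  have h := hc.continuous_fderiv one_ne_zero
  unfold db
  fun_prop

/-- Integration by parts against a test function supported in the ball. -/
theorem ibp {μ : Measure V} [μ.IsAddHaarMeasure] {G c : V → ℂ} (hG : ContDiffOn ℝ 1 G ball)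
    (hc : ContDiff ℝ 1 c) (hk : IsCompact (tsupport c)) (hs : tsupport c ⊆ ball) (v : V) :
    ∫ z, G z * db c z v ∂μ = -∫ z, db G z v * c z ∂μ := by
  have hG1 := hG.continuousOn_fderiv_of_isOpen isOpen_ball le_rfl
  have hc1 := hc.continuous_fderiv one_ne_zero
  have i1 : ∀ w : V, Integrable (fun z => fderiv ℝ G z w * c z) μ := fun w =>
    integrable_mul hk (ContinuousOn.mono (by fun_prop) hs) hc.continuous
      fun z hz => image_eq_zero_of_notMem_tsupport hz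
  have i2 : ∀ w : V, Integrable (fun z => G z * fderiv ℝ c z w) μ := fun w =>
    integrable_mul hk (hG.continuousOn.mono hs) (by fun_prop)
      fun z hz => by simp [fderiv_zero_of_notMem hz]
  have i3 : Integrable (fun z => G z * c z) μ :=
    integrable_mul hk (hG.continuousOn.mono hs) hc.continuous
      fun z hz => image_eq_zero_of_notMem_tsupport hz
  have key : ∀ w : V, ∫ z, G z * fderiv ℝ c z w ∂μ = -∫ z, fderiv ℝ G z w * c z ∂μ := fun w =>
    integral_mul_fderiv_eq_neg_fderiv_mul_of_integrable (i1 w) (i2 w) i3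
      (fun z hz => (hG.contDiffAt (isOpen_ball.mem_nhds (hs hz))).differentiableAt one_ne_zero)
      (fun z _ => hc.differentiable one_ne_zero z)
  have e1 : (fun z => G z * db c z v) =
      fun z => (1 / 2) * (G z * fderiv ℝ c z v) + (I / 2) * (G z * fderiv ℝ c z (I • v)) := by
    funext z; rw [db]; ring
  have e2 : (fun z => db G z v * c z) =
      fun z => (1 / 2) * (fderiv ℝ G z v * c z) + (I / 2) * (fderiv ℝ G z (I • v) * c z) := by
    funext z; rw [db]; ring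
  rw [e1, e2, integral_add ((i2 _).const_mul _) ((i2 _).const_mul _),
    integral_add ((i1 _).const_mul _) ((i1 _).const_mul _), integral_const_mul, integral_const_mul,
    integral_const_mul, integral_const_mul, key, key]
  ring

end Pool.Agent.MP_54e5d7_al.Atc.Tr

end MrgPart2

-- ======== part 3: formerly Pool.Agent.MP_54e5d7_al.atc.tr.Field
section MrgPart3

/-!
# The vector fields of matrices on the ball and an exact primitive of the kernel diagonal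
-/

set_option autoImplicit false

open Complex Matrix MeasureTheory
open scoped ComplexConjugate

namespace Pool.Agent.MP_54e5d7_al.Atc.Tr

/-- Homogeneous coordinates. -/
def hx (z : V) : Fin 3 → ℂ := ![z.1, z.2, 1]

/-- The hermitian form of signature `(2, 1)`. -/
def hf (x y : Fin 3 → ℂ) : ℂ := x 0 * conj (y 0) + x 1 * conj (y 1) - x 2 * conj (y 2)

/-- The projective action. -/
noncomputable def act (A : M3) (z : V) : V :=
  ((A *ᵥ hx z) 0 / (A *ᵥ hx z) 2, (A *ᵥ hx z) 1 / (A *ᵥ hx z) 2)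

noncomputable def nn (A : M3) (z : V) : ℂ := hf (A *ᵥ hx z) (hx z)

noncomputable def n1 (z : V) : ℂ := hf (hx z) (hx z)

/-- The normalised displacement `<A x, x> / <x, x>`. -/
noncomputable def pp (A : M3) (z : V) : ℂ := nn A z * (n1 z)⁻¹

/-- The holomorphic vector field of the matrix `A`. -/
noncomputable def xi (A : M3) (z : V) : V :=
  ((A *ᵥ hx z) 0 - z.1 * (A *ᵥ hx z) 2, (A *ᵥ hx z) 1 - z.2 * (A *ᵥ hx z) 2)

/-- The density of the invariant measure. -/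
noncomputable def wt (z : V) : ℂ := ((1 - ‖z.1‖ ^ 2 - ‖z.2‖ ^ 2 : ℝ) : ℂ)⁻¹ ^ 3

theorem mv (A : M3) (z : V) (i : Fin 3) : (A *ᵥ hx z) i = A i 0 * z.1 + A i 1 * z.2 + A i 2 := by
  simp [mulVec, dotProduct, Fin.sum_univ_three, hx]

theorem n1_eq (z : V) : n1 z = z.1 * conj z.1 + z.2 * conj z.2 - 1 := by simp [n1, hf, hx]

theorem n1_real (z : V) : n1 z = -((1 - ‖z.1‖ ^ 2 - ‖z.2‖ ^ 2 : ℝ) : ℂ) := by
  rw [n1_eq, mul_conj', mul_conj']; push_cast; ring

theorem n1_ne {z : V} (hz : z ∈ ball) : n1 z ≠ 0 := by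
  rw [n1_real, neg_ne_zero, ofReal_ne_zero]
  have : ‖z.1‖ ^ 2 + ‖z.2‖ ^ 2 < 1 := hz
  linarith

theorem wt_eq : wt = fun z => -((n1 z)⁻¹ * (n1 z)⁻¹ * (n1 z)⁻¹) := by
  funext z; rw [wt, n1_real, inv_neg]; ring

theorem nn_eq (B : M3) : nn B = fun z => (B 0 0 * z.1 + B 0 1 * z.2 + B 0 2) * conj z.1 +
    (B 1 0 * z.1 + B 1 1 * z.2 + B 1 2) * conj z.2 - (B 2 0 * z.1 + B 2 1 * z.2 + B 2 2) := by
  funext z; rw [nn, hf, mv, mv, mv]; simp [hx]

theorem hd_lin (a b c : ℂ) (z v : V) : HD (fun y => a * y.1 + b * y.2 + c) z v 0 :=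
  ((((HD.const a z v).mul (HD.fst z v)).add ((HD.const b z v).mul (HD.snd z v))).add
    (HD.const c z v)).cg (by simp)

theorem hd_nn (B : M3) (z v : V) :
    HD (nn B) z v ((B *ᵥ hx z) 0 * conj v.1 + (B *ᵥ hx z) 1 * conj v.2) := by
  rw [nn_eq]
  exact ((((hd_lin _ _ _ z v).mul (HD.cfst z v)).add ((hd_lin _ _ _ z v).mul (HD.csnd z v))).sub
    (hd_lin _ _ _ z v)).cg (by rw [mv, mv]; ring)

theorem hd_n1 (z v : V) : HD n1 z v (z.1 * conj v.1 + z.2 * conj v.2) := by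
  have : n1 = fun z : V => z.1 * conj z.1 + z.2 * conj z.2 - 1 := funext n1_eq
  rw [this]
  exact ((((HD.fst z v).mul (HD.cfst z v)).add ((HD.snd z v).mul (HD.csnd z v))).sub
    (HD.const 1 z v)).cg (by ring)

theorem hd_pp (A B : M3) {z : V} (hz : z ∈ ball) :
    HD (pp B) z (xi A z) (hf (B *ᵥ hx z) (A *ᵥ hx z) * (n1 z)⁻¹ -
      pp B z * (hf (hx z) (A *ᵥ hx z) * (n1 z)⁻¹)) := by
  have h := n1_ne hz
  refine ((hd_nn B z _).mul ((hd_n1 z _).inv h)).cg ?_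
  have h1 := n1_eq z
  have h2 : nn B z = (B *ᵥ hx z) 0 * conj z.1 + (B *ᵥ hx z) 1 * conj z.2 - (B *ᵥ hx z) 2 := by
    simp [nn, hf, hx]
  simp only [pp, xi, hf, map_sub, map_mul]
  have h3 : hx z 0 = z.1 := rfl
  have h4 : hx z 1 = z.2 := rfl
  have h5 : hx z 2 = 1 := rfl
  rw [h3, h4, h5]
  field_simp
  rw [h2]
  linear_combination (-conj ((A *ᵥ hx z) 2) * ((B *ᵥ hx z) 0 * conj z.1 +
    (B *ᵥ hx z) 1 * conj z.2 - (B *ᵥ hx z) 2)) * h1

theorem cxi1 (A : M3) : (fun z => conj (xi A z).1) = fun z : V =>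
    conj (A 0 0) * conj z.1 + conj (A 0 1) * conj z.2 + conj (A 0 2) -
      conj z.1 * (conj (A 2 0) * conj z.1 + conj (A 2 1) * conj z.2 + conj (A 2 2)) := by
  funext z; simp [xi, mv]

theorem cxi2 (A : M3) : (fun z => conj (xi A z).2) = fun z : V =>
    conj (A 1 0) * conj z.1 + conj (A 1 1) * conj z.2 + conj (A 1 2) -
      conj z.2 * (conj (A 2 0) * conj z.1 + conj (A 2 1) * conj z.2 + conj (A 2 2)) := by
  funext z; simp [xi, mv]

theorem hd_clin (a b c : ℂ) (z v : V) :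
    HD (fun y => a * conj y.1 + b * conj y.2 + c) z v (a * conj v.1 + b * conj v.2) :=
  ((((HD.const a z v).mul (HD.cfst z v)).add ((HD.const b z v).mul (HD.csnd z v))).add
    (HD.const c z v)).cg (by simp)

theorem hd_wt {z : V} (hz : z ∈ ball) (v : V) :
    HD wt z v (-3 * wt z * ((z.1 * conj v.1 + z.2 * conj v.2) * (n1 z)⁻¹)) := by
  have h := n1_ne hz
  have h1 := (hd_n1 z v).inv h
  have h2 := (HD.const 0 z v).sub ((h1.mul h1).mul h1)
  simp only [zero_sub] at h2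
  rw [wt_eq]
  exact h2.cg (by field_simp; ring)

/-- The divergence of `f` times the field of `A` for the invariant measure. -/
theorem div_field (A : M3) {f : V → ℂ} {z : V} (hz : z ∈ ball) (hd : DifferentiableAt ℝ f z) :
    db (fun y => wt y * f y * conj (xi A y).1) z (1, 0) +
      db (fun y => wt y * f y * conj (xi A y).2) z (0, 1) =
    wt z * (db f z (xi A z) +
      f z * (conj A.trace - 3 * (hf (hx z) (A *ᵥ hx z) * (n1 z)⁻¹))) := by
  have h := n1_ne hz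
  have a1 := (hd_clin (conj (A 0 0)) (conj (A 0 1)) (conj (A 0 2)) z (1, 0)).sub
    ((HD.cfst z _).mul (hd_clin (conj (A 2 0)) (conj (A 2 1)) (conj (A 2 2)) z _))
  have a2 := (hd_clin (conj (A 1 0)) (conj (A 1 1)) (conj (A 1 2)) z (0, 1)).sub
    ((HD.csnd z _).mul (hd_clin (conj (A 2 0)) (conj (A 2 1)) (conj (A 2 2)) z _))
  rw [← cxi1] at a1
  rw [← cxi2] at a2
  rw [(((hd_wt hz _).mul (HD.mk' hd _)).mul a1).2, (((hd_wt hz _).mul (HD.mk' hd _)).mul a2).2,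
    db_split f z (xi A z)]
  have h1 := n1_eq z
  have h3 : hx z 0 = z.1 := rfl
  have h4 : hx z 1 = z.2 := rfl
  have h5 : hx z 2 = 1 := rfl
  simp only [xi, hf, h3, h4, h5, mv, trace_fin_three, map_add, map_sub, map_mul, map_one, map_zero]
  field_simp
  linear_combination (-3 * wt z * f z *
    (conj (A 2 0) * conj z.1 + conj (A 2 1) * conj z.2 + conj (A 2 2))) * h1

theorem cd_n1 : ContDiff ℝ 1 n1 := by
  have : n1 = fun z : V => z.1 * conjCLE z.1 + z.2 * conjCLE z.2 - 1 := funext n1_eq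
  rw [this]; fun_prop

theorem cd_nn (B : M3) : ContDiff ℝ 1 (nn B) := by
  rw [nn_eq]
  simp only [← conjCLE_apply]
  fun_prop

theorem cd_inv : ContDiffOn ℝ 1 (fun z => (n1 z)⁻¹) ball :=
  cd_n1.contDiffOn.inv fun _ hz => n1_ne hz

theorem cd_pp (B : M3) : ContDiffOn ℝ 1 (pp B) ball := (cd_nn B).contDiffOn.mul cd_inv

theorem cd_wt : ContDiffOn ℝ 1 wt ball := by
  rw [wt_eq]; exact ((cd_inv.mul cd_inv).mul cd_inv).neg

theorem cd_cxi1 (A : M3) : ContDiff ℝ 1 (fun z => conj (xi A z).1) := by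
  rw [cxi1]
  simp only [← conjCLE_apply]
  fun_prop

theorem cd_cxi2 (A : M3) : ContDiff ℝ 1 (fun z => conj (xi A z).2) := by
  rw [cxi2]
  simp only [← conjCLE_apply]
  fun_prop

theorem cont_xi (A : M3) : Continuous (xi A) := by
  unfold xi
  simp only [mv]
  fun_prop

theorem cont_dbxi {c : V → ℂ} (hc : ContDiff ℝ 1 c) (A : M3) :
    Continuous fun z => db c z (xi A z) := by
  have h := hc.continuous_fderiv one_ne_zero
  have h2 := cont_xi A
  unfold db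
  fun_prop

/-- Integration by parts along the field of `A`. -/
theorem ibp_field {μ : Measure V} [μ.IsAddHaarMeasure] (A : M3) {f c : V → ℂ}
    (hf1 : ContDiffOn ℝ 1 f ball) (hc : ContDiff ℝ 1 c) (hk : IsCompact (tsupport c))
    (hs : tsupport c ⊆ ball) :
    Integrable (fun z => wt z * (db f z (xi A z) +
      f z * (conj A.trace - 3 * (hf (hx z) (A *ᵥ hx z) * (n1 z)⁻¹))) * c z) μ ∧
    ∫ z, wt z * f z * db c z (xi A z) ∂μ = -∫ z, wt z * (db f z (xi A z) +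
      f z * (conj A.trace - 3 * (hf (hx z) (A *ᵥ hx z) * (n1 z)⁻¹))) * c z ∂μ := by
  have g1 := (cd_wt.mul hf1).mul (cd_cxi1 A).contDiffOn
  have g2 := (cd_wt.mul hf1).mul (cd_cxi2 A).contDiffOn
  have i1 := integrable_mul (μ := μ) hk ((cont_db g1 (1, 0)).mono hs) hc.continuous
    fun z hz => image_eq_zero_of_notMem_tsupport hz
  have i2 := integrable_mul (μ := μ) hk ((cont_db g2 (0, 1)).mono hs) hc.continuous
    fun z hz => image_eq_zero_of_notMem_tsupport hz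
  have j1 := integrable_mul (μ := μ) hk (g1.continuousOn.mono hs) (cont_db' hc (1, 0))
    fun z hz => db_zero_of_notMem hz _
  have j2 := integrable_mul (μ := μ) hk (g2.continuousOn.mono hs) (cont_db' hc (0, 1))
    fun z hz => db_zero_of_notMem hz _
  have e : (fun z => wt z * (db f z (xi A z) +
      f z * (conj A.trace - 3 * (hf (hx z) (A *ᵥ hx z) * (n1 z)⁻¹))) * c z) = fun z =>
      db (fun y => wt y * f y * conj (xi A y).1) z (1, 0) * c z +
        db (fun y => wt y * f y * conj (xi A y).2) z (0, 1) * c z := by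
    funext z
    by_cases hz : z ∈ tsupport c
    · rw [← div_field A (hs hz)
        ((hf1.contDiffAt (isOpen_ball.mem_nhds (hs hz))).differentiableAt one_ne_zero), add_mul]
    · simp [image_eq_zero_of_notMem_tsupport hz]
  rw [e]
  refine ⟨i1.add i2, ?_⟩
  rw [integral_add i1 i2, neg_add, ← ibp g1 hc hk hs, ← ibp g2 hc hk hs, ← integral_add j1 j2]
  congr 1
  funext z
  rw [db_split c z (xi A z)]
  ring

end Pool.Agent.MP_54e5d7_al.Atc.Tr

end MrgPart3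

-- ======== part 4: formerly Pool.Agent.MP_54e5d7_al.atc.tr.Prim
section MrgPart4

/-!
# The exact primitive of the diagonal of the kernel, its size and its equivariance
-/

set_option autoImplicit false

open Complex Matrix MeasureTheory
open scoped ComplexConjugate

namespace Pool.Agent.MP_54e5d7_al.Atc.Tr

/-- The matrix preserves the hermitian form. -/
def IsU (k : M3) : Prop := ∀ x y, hf (k *ᵥ x) (k *ᵥ y) = hf x y

theorem hf_adj {k k' : M3} (hk : IsU k) (h : k * k' = 1) (x y : Fin 3 → ℂ) :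
    hf (k' *ᵥ x) y = hf x (k *ᵥ y) := by
  rw [← hk (k' *ᵥ x) y, mulVec_mulVec, h, one_mulVec]

theorem hf_conj (x y : Fin 3 → ℂ) : conj (hf x y) = hf y x := by
  simp only [hf, map_add, map_sub, map_mul, conj_conj]; ring

theorem IsU.inv {k k' : M3} (hk : IsU k) (h : k * k' = 1) : IsU k' := fun x y => by
  rw [hf_adj hk h, mulVec_mulVec, h, one_mulVec]

theorem conj_trace {k k' : M3} (hk : IsU k) (h : k * k' = 1) : conj k.trace = k'.trace := by
  have h0 := hf_adj hk h (Pi.single 0 1) (Pi.single 0 1)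
  have h1 := hf_adj hk h (Pi.single 1 1) (Pi.single 1 1)
  have h2 := hf_adj hk h (Pi.single 2 1) (Pi.single 2 1)
  simp [hf] at h0 h1 h2
  simp [trace_fin_three, h0, h1, h2]

theorem cayley {k k' : M3} (h : k * k' = 1) (hd : k.det = 1) :
    k * k = k.trace • k - k'.trace • (1 : M3) + k' := by
  have h1 : k' = k.adjugate := by
    rw [← mul_one k.adjugate, ← h, ← mul_assoc, adjugate_mul, hd, one_smul, one_mul]
  rw [h1]
  ext i j
  fin_cases i <;> fin_cases j <;>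
    simp [adjugate_fin_three, trace_fin_three, mul_apply, Fin.sum_univ_three] <;> ring

theorem pp_sq {k k' : M3} (h : k * k' = 1) (hd : k.det = 1) {z : V} (hz : z ∈ ball) :
    hf (k *ᵥ (k *ᵥ hx z)) (hx z) * (n1 z)⁻¹ = k.trace * pp k z - k'.trace + pp k' z := by
  have h0 := n1_ne hz
  have : hf (k *ᵥ (k *ᵥ hx z)) (hx z) = k.trace * nn k z - k'.trace * n1 z + nn k' z := by
    rw [mulVec_mulVec, cayley h hd, add_mulVec, sub_mulVec, smul_mulVec, smul_mulVec, one_mulVec]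
    simp only [nn, n1, hf, Pi.add_apply, Pi.sub_apply, Pi.smul_apply, smul_eq_mul]
    ring
  rw [this, pp, pp]
  field_simp

theorem pp_inv {k k' : M3} (hk : IsU k) (h : k * k' = 1) (z : V) : pp k' z = conj (pp k z) := by
  rw [pp, pp, nn, nn, hf_adj hk h, map_mul, hf_conj, map_inv₀, n1, hf_conj]

noncomputable def NN (k k' : M3) (z : V) : ℂ := pp k z * pp k' z - 1

noncomputable def f1 (t : ℂ) (k k' : M3) (θ : V → ℂ) (z : V) : ℂ :=
  (2 - t) * (pp k z * θ z * (NN k k' z)⁻¹) -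
    pp k z * pp k z * θ z * pp k' z * ((NN k k' z)⁻¹ * (NN k k' z)⁻¹)

noncomputable def f2 (k k' : M3) (θ : V → ℂ) (z : V) : ℂ :=
  0 - pp k z * pp k z * θ z * ((NN k k' z)⁻¹ * (NN k k' z)⁻¹)

/-- The primitive applied to a test function. -/
noncomputable def TT (t : ℂ) (k k' : M3) (θ c : V → ℂ) (z : V) : ℂ :=
  f1 t k k' θ z * db c z (xi k z) + f2 k k' θ z * db c z (xi k' z)

theorem norm_NN {k k' : M3} (hk : IsU k) (h : k * k' = 1) (z : V) :
    NN k k' z = ((‖pp k z‖ ^ 2 - 1 : ℝ) : ℂ) := by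
  rw [NN, pp_inv hk h, mul_conj']; push_cast; ring

theorem NN_ne {k k' : M3} (hk : IsU k) (h : k * k' = 1) {z : V} (hp : 1 < ‖pp k z‖ ^ 2) :
    NN k k' z ≠ 0 := by
  rw [norm_NN hk h, ofReal_ne_zero]; linarith

theorem div_prim {t : ℂ} {k k' : M3} (hk : IsU k) (h : k * k' = 1) (hd : k.det = 1) {θ : V → ℂ}
    {z : V} (hz : z ∈ ball) (hp : 1 < ‖pp k z‖ ^ 2) (hθ : DifferentiableAt ℝ θ z)
    (hθ' : ∀ v, pp k z * fderiv ℝ θ z v = -t * θ z * fderiv ℝ (pp k) z v) :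
    (db (f1 t k k' θ) z (xi k z) +
      f1 t k k' θ z * (conj k.trace - 3 * (hf (hx z) (k *ᵥ hx z) * (n1 z)⁻¹))) +
    (db (f2 k k' θ) z (xi k' z) +
      f2 k k' θ z * (conj k'.trace - 3 * (hf (hx z) (k' *ᵥ hx z) * (n1 z)⁻¹))) =
      -((2 - t) * (1 - t)) * θ z := by
  have h' : k' * k = 1 := mul_eq_one_comm.1 h
  have hk' := hk.inv h
  have hd' : k'.det = 1 := by
    have := congrArg det h
    rwa [det_mul, hd, one_mul, det_one] at this
  have h0 := n1_ne hz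
  have hN := NN_ne hk h hp
  have p0 : pp k z ≠ 0 := by
    intro e; rw [e] at hp; norm_num at hp
  have q1 : hf (hx z) (k *ᵥ hx z) * (n1 z)⁻¹ = pp k' z := by rw [← hf_adj hk h]; rfl
  have q2 : hf (hx z) (k' *ᵥ hx z) * (n1 z)⁻¹ = pp k z := by rw [← hf_adj hk' h']; rfl
  have o1 : n1 z * (n1 z)⁻¹ = 1 := mul_inv_cancel₀ h0
  have a1 := hd_pp k k hz
  have a2 := hd_pp k k' hz
  have b1 := hd_pp k' k hz
  have b2 := hd_pp k' k' hz
  rw [hk, q1, ← n1, o1] at a1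
  rw [← hf_adj hk h, pp_sq h' hd' hz, q1] at a2
  rw [← hf_adj hk' h', pp_sq h hd hz, q2] at b1
  rw [hk', q2, ← n1, o1] at b2
  have tθ : ∀ v a, HD (pp k) z v a → HD θ z v (-t * θ z * a / pp k z) := fun v a ha => ⟨hθ, by
    rw [← ha.2, eq_div_iff p0, db, db]
    linear_combination hθ' v / 2 + I * hθ' (I • v) / 2⟩
  have aN := (((a1.mul a2).sub (HD.const 1 z _)).inv hN)
  have bN := (((b1.mul b2).sub (HD.const 1 z _)).inv hN)
  have A := ((HD.const (2 - t) z _).mul ((a1.mul (tθ _ _ a1)).mul aN)).sub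
    ((((a1.mul a1).mul (tθ _ _ a1)).mul a2).mul (aN.mul aN))
  have B := (HD.const 0 z _).sub (((b1.mul b1).mul (tθ _ _ b1)).mul (bN.mul bN))
  have A' : db (f1 t k k' θ) z (xi k z) = _ := A.2
  have B' : db (f2 k k' θ) z (xi k' z) = _ := B.2
  rw [A', B', q1, q2, conj_trace hk h, conj_trace hk' h', f1, f2, NN]
  rw [NN] at hN
  field_simp
  ring

theorem cd_f {t : ℂ} {k k' : M3} (hk : IsU k) (h : k * k' = 1) {θ : V → ℂ}
    (hp : ∀ z ∈ ball, 1 < ‖pp k z‖ ^ 2) (hθ : ContDiffOn ℝ 1 θ ball) :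
    ContDiffOn ℝ 1 (f1 t k k' θ) ball ∧ ContDiffOn ℝ 1 (f2 k k' θ) ball := by
  have a := cd_pp k
  have b := cd_pp k'
  have n : ContDiffOn ℝ 1 (fun z => (NN k k' z)⁻¹) ball :=
    ((a.mul b).sub contDiffOn_const).inv fun z hz => NN_ne hk h (hp z hz)
  exact ⟨(contDiffOn_const.mul ((a.mul hθ).mul n)).sub ((((a.mul a).mul hθ).mul b).mul (n.mul n)),
    contDiffOn_const.sub (((a.mul a).mul hθ).mul (n.mul n))⟩

theorem cont_TT {t : ℂ} {k k' : M3} (hk : IsU k) (h : k * k' = 1) {θ c : V → ℂ}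
    (hp : ∀ z ∈ ball, 1 < ‖pp k z‖ ^ 2) (hθ : ContDiffOn ℝ 1 θ ball)
    (hc : ContDiffOn ℝ 1 c ball) : ContinuousOn (TT t k k' θ c) ball := by
  have h1 := hc.continuousOn_fderiv_of_isOpen isOpen_ball le_rfl
  have h2 := (cont_xi k).continuousOn (s := ball)
  have h3 := (cont_xi k').continuousOn (s := ball)
  have h4 := (cd_f (t := t) hk h hp hθ).1.continuousOn
  have h5 := (cd_f (t := t) hk h hp hθ).2.continuousOn
  unfold TT db
  fun_prop

/-- The diagonal of the kernel is exact. -/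
theorem integral_prim {μ : Measure V} [μ.IsAddHaarMeasure] {t : ℂ} {k k' : M3} (hk : IsU k)
    (h : k * k' = 1) (hd : k.det = 1) {θ c : V → ℂ} (hp : ∀ z ∈ ball, 1 < ‖pp k z‖ ^ 2)
    (hθ : ContDiffOn ℝ 1 θ ball)
    (hθ' : ∀ z ∈ ball, ∀ v, pp k z * fderiv ℝ θ z v = -t * θ z * fderiv ℝ (pp k) z v)
    (hc : ContDiff ℝ 1 c) (hK : IsCompact (tsupport c)) (hs : tsupport c ⊆ ball) :
    ∫ z, wt z * TT t k k' θ c z ∂μ = (2 - t) * (1 - t) * ∫ z, wt z * θ z * c z ∂μ := by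
  obtain ⟨c1, c2⟩ := cd_f (t := t) hk h hp hθ
  obtain ⟨i1, e1⟩ := ibp_field (μ := μ) k c1 hc hK hs
  obtain ⟨i2, e2⟩ := ibp_field (μ := μ) k' c2 hc hK hs
  have j1 := integrable_mul (μ := μ) hK ((cd_wt.mul c1).continuousOn.mono hs) (cont_dbxi hc k)
    fun z hz => db_zero_of_notMem hz _
  have j2 := integrable_mul (μ := μ) hK ((cd_wt.mul c2).continuousOn.mono hs) (cont_dbxi hc k')
    fun z hz => db_zero_of_notMem hz _
  have e : (fun z => wt z * TT t k k' θ c z) = fun z => wt z * f1 t k k' θ z * db c z (xi k z) +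
      wt z * f2 k k' θ z * db c z (xi k' z) := by
    funext z; rw [TT]; ring
  rw [e, integral_add j1 j2, e1, e2, ← neg_add, ← integral_add i1 i2, ← integral_neg,
    ← integral_const_mul]
  congr 1
  funext z
  by_cases hz : z ∈ tsupport c
  · have := div_prim hk h hd (hs hz) (hp z (hs hz))
      ((hθ.contDiffAt (isOpen_ball.mem_nhds (hs hz))).differentiableAt one_ne_zero) (hθ' z (hs hz))
    linear_combination (-wt z * c z) * this
  · simp [image_eq_zero_of_notMem_tsupport hz]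

theorem last_sq {k : M3} (hk : IsU k) (z : V) : ‖(k *ᵥ hx z) 0‖ ^ 2 + ‖(k *ᵥ hx z) 1‖ ^ 2 -
    ‖(k *ᵥ hx z) 2‖ ^ 2 = -(1 - ‖z.1‖ ^ 2 - ‖z.2‖ ^ 2) := by
  have h := hk (hx z) (hx z)
  rw [← n1, n1_real, hf, mul_conj', mul_conj', mul_conj'] at h
  exact_mod_cast h

theorem xi_sq {k : M3} (hk : IsU k) {z : V} (hz : z ∈ ball) :
    ‖(xi k z).1‖ ^ 2 + ‖(xi k z).2‖ ^ 2 ≤ ‖pp k z‖ ^ 2 - 1 := by
  have hz' : ‖z.1‖ ^ 2 + ‖z.2‖ ^ 2 < 1 := hz
  have h0 : 0 < 1 - ‖z.1‖ ^ 2 - ‖z.2‖ ^ 2 := by linarith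
  have h3 : ‖nn k z‖ = ‖pp k z‖ * (1 - ‖z.1‖ ^ 2 - ‖z.2‖ ^ 2) := by
    rw [pp, norm_mul, norm_inv, n1_real, norm_neg, norm_real, Real.norm_of_nonneg h0.le]
    field_simp
  have h := hk (hx z) (hx z)
  have e : nn k z * conj (nn k z) - n1 z * n1 z =
      ((xi k z).1 * conj z.1 + (xi k z).2 * conj z.2) *
        conj ((xi k z).1 * conj z.1 + (xi k z).2 * conj z.2) -
      n1 z * ((xi k z).1 * conj (xi k z).1 + (xi k z).2 * conj (xi k z).2) := by
    have a3 : hx z 0 = z.1 := rfl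
    have a4 : hx z 1 = z.2 := rfl
    have a5 : hx z 2 = 1 := rfl
    simp only [nn, n1, xi, hf, a3, a4, a5, map_add, map_sub, map_mul, map_one, conj_conj] at h ⊢
    linear_combination (z.1 * conj z.1 + z.2 * conj z.2 - 1) * h
  rw [mul_conj', mul_conj', mul_conj', mul_conj', n1_real, h3] at e
  have e2 := congrArg re e
  simp only [← ofReal_pow, ← ofReal_mul, ← ofReal_neg, ← ofReal_add, ← ofReal_sub, ofReal_re] at e2
  have p1 := sq_nonneg ‖(xi k z).1 * conj z.1 + (xi k z).2 * conj z.2‖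
  have p2 : 0 ≤ ‖(xi k z).1‖ ^ 2 + ‖(xi k z).2‖ ^ 2 := by positivity
  have p3 : 1 - ‖z.1‖ ^ 2 - ‖z.2‖ ^ 2 ≤ 1 := by nlinarith [sq_nonneg ‖z.1‖, sq_nonneg ‖z.2‖]
  generalize 1 - ‖z.1‖ ^ 2 - ‖z.2‖ ^ 2 = ρ at *
  generalize ‖(xi k z).1‖ ^ 2 + ‖(xi k z).2‖ ^ 2 = X at *
  refine le_of_mul_le_mul_left (a := ρ * ρ) ?_ (by positivity)
  nlinarith [mul_le_mul_of_nonneg_left p3 (mul_nonneg h0.le p2)]

theorem norm_xi {k : M3} (hk : IsU k) {z : V} (hz : z ∈ ball) : ‖xi k z‖ ≤ 4 * ‖pp k z‖ := by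
  have h := xi_sq hk hz
  have p := norm_nonneg (pp k z)
  have a : ‖(xi k z).1‖ ≤ ‖pp k z‖ := (pow_le_pow_iff_left₀ (norm_nonneg _) p two_ne_zero).1
    (by nlinarith [sq_nonneg ‖(xi k z).2‖])
  have b : ‖(xi k z).2‖ ≤ ‖pp k z‖ := (pow_le_pow_iff_left₀ (norm_nonneg _) p two_ne_zero).1
    (by nlinarith [sq_nonneg ‖(xi k z).1‖])
  exact max_le (by linarith) (by linarith)

theorem norm_TT {t : ℂ} {k k' : M3} (hk : IsU k) (h : k * k' = 1) (θ c : V → ℂ) {z : V}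
    (hz : z ∈ ball) {δ : ℝ} (hδ : 0 < δ) (hp : 1 + δ ≤ ‖pp k z‖ ^ 2) :
    ‖TT t k k' θ c z‖ ≤
      (4 * ‖2 - t‖ * ((1 + δ) / δ) + 8 * ((1 + δ) / δ) ^ 2) * ‖fderiv ℝ c z‖ * ‖θ z‖ := by
  have q : ‖pp k' z‖ = ‖pp k z‖ := by rw [pp_inv hk h, norm_conj]
  have x1 := (db_bound c z (xi k z)).trans
    (mul_le_mul_of_nonneg_left (norm_xi hk hz) (norm_nonneg _))
  have x2 := (db_bound c z (xi k' z)).trans
    (mul_le_mul_of_nonneg_left (norm_xi (hk.inv h) hz) (norm_nonneg _))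
  have n0 : 0 < ‖pp k z‖ ^ 2 - 1 := by linarith
  have n : ‖(NN k k' z)⁻¹‖ = (‖pp k z‖ ^ 2 - 1)⁻¹ := by
    rw [norm_inv, norm_NN hk h, norm_real, Real.norm_of_nonneg n0.le]
  have y1 : ‖f1 t k k' θ z‖ ≤ ‖2 - t‖ * (‖pp k z‖ * ‖θ z‖ * (‖pp k z‖ ^ 2 - 1)⁻¹) +
      ‖pp k z‖ * ‖pp k z‖ * ‖θ z‖ * ‖pp k z‖ * ((‖pp k z‖ ^ 2 - 1)⁻¹ * (‖pp k z‖ ^ 2 - 1)⁻¹) := by
    refine (norm_sub_le _ _).trans (le_of_eq ?_)
    simp only [norm_mul, n, q]
  have y2 : ‖f2 k k' θ z‖ =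
      ‖pp k z‖ * ‖pp k z‖ * ‖θ z‖ * ((‖pp k z‖ ^ 2 - 1)⁻¹ * (‖pp k z‖ ^ 2 - 1)⁻¹) := by
    simp only [f2, zero_sub, norm_neg, norm_mul, n]
  have l : ‖pp k z‖ ^ 2 * (‖pp k z‖ ^ 2 - 1)⁻¹ ≤ (1 + δ) / δ := by
    rw [← div_eq_mul_inv, div_le_div_iff₀ n0 hδ]; nlinarith
  have p1 : 1 ≤ ‖pp k z‖ := by
    by_contra hh
    nlinarith [norm_nonneg (pp k z)]
  rw [q] at x2
  have z1 := mul_le_mul y1 x1 (norm_nonneg _) (by positivity)
  have z2 := mul_le_mul y2.le x2 (norm_nonneg _) (by positivity)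
  refine (norm_add_le _ _).trans ?_
  rw [norm_mul, norm_mul]
  refine (add_le_add z1 z2).trans ?_
  have pD := norm_nonneg (fderiv ℝ c z)
  have pθ := norm_nonneg (θ z)
  have pT := norm_nonneg (2 - t)
  have pm : 0 ≤ (‖pp k z‖ ^ 2 - 1)⁻¹ := inv_nonneg.2 n0.le
  generalize ‖pp k z‖ = P at *
  generalize (P ^ 2 - 1)⁻¹ = m at *
  generalize (1 + δ) / δ = L at *
  have l2 : (P ^ 2 * m) ^ 2 ≤ L ^ 2 := pow_le_pow_left₀ (by positivity) l 2
  have l3 : P ^ 3 * m ^ 2 ≤ (P ^ 2 * m) ^ 2 := by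
    have : P ^ 3 ≤ P ^ 4 := pow_le_pow_right₀ p1 (by norm_num)
    nlinarith [sq_nonneg m]
  have l4 := mul_le_mul_of_nonneg_left l pT
  have : 4 * (‖2 - t‖ * (P ^ 2 * m)) + 4 * (P ^ 2 * m) ^ 2 + 4 * (P ^ 3 * m ^ 2) ≤
      4 * ‖2 - t‖ * L + 8 * L ^ 2 := by linarith
  have := mul_le_mul_of_nonneg_right this (mul_nonneg pD pθ)
  nlinarith

theorem last_ne {g : M3} (hg : IsU g) {z : V} (hz : z ∈ ball) : (g *ᵥ hx z) 2 ≠ 0 := by
  intro e
  have h1 := last_sq hg z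
  have hz' : ‖z.1‖ ^ 2 + ‖z.2‖ ^ 2 < 1 := hz
  rw [e, norm_zero] at h1
  nlinarith [sq_nonneg ‖(g *ᵥ hx z) 0‖, sq_nonneg ‖(g *ᵥ hx z) 1‖]

theorem hx_act {g : M3} (hg : IsU g) {z : V} (hz : z ∈ ball) :
    hx (act g z) = ((g *ᵥ hx z) 2)⁻¹ • (g *ᵥ hx z) := by
  have := last_ne hg hz
  funext i
  fin_cases i
  · simp [hx, act, div_eq_inv_mul]
  · simp [hx, act, div_eq_inv_mul]
  · exact (inv_mul_cancel₀ this).symm

theorem act_mem {g : M3} (hg : IsU g) {z : V} (hz : z ∈ ball) : act g z ∈ ball := by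
  have h1 := last_sq hg z
  have hz' : ‖z.1‖ ^ 2 + ‖z.2‖ ^ 2 < 1 := hz
  have h2 : 0 < ‖(g *ᵥ hx z) 2‖ ^ 2 := pow_pos (norm_pos_iff.2 (last_ne hg hz)) 2
  change ‖_ / _‖ ^ 2 + ‖_ / _‖ ^ 2 < 1
  rw [norm_div, norm_div, div_pow, div_pow, ← add_div, div_lt_one h2]
  linarith

theorem act_mul {g g' : M3} (hg' : IsU g') {z : V} (hz : z ∈ ball) :
    act (g * g') z = act g (act g' z) := by
  have := last_ne hg' hz
  rw [act, act, hx_act hg' hz, mulVec_smul, mulVec_mulVec]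
  simp only [Pi.smul_apply, smul_eq_mul]
  rw [mul_div_mul_left _ _ (inv_ne_zero this), mul_div_mul_left _ _ (inv_ne_zero this)]

theorem act_one (z : V) : act 1 z = z := by simp [act, hx]

theorem hf_smul (a : ℂ) (x y : Fin 3 → ℂ) : hf (a • x) (a • y) = a * conj a * hf x y := by
  simp only [hf, Pi.smul_apply, smul_eq_mul, map_mul]; ring

theorem pp_act {g g' : M3} (hg : IsU g) (h : g' * g = 1) (A : M3) {z : V} (hz : z ∈ ball) :
    pp (g * A * g') (act g z) = pp A z := by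
  have h1 := inv_ne_zero (last_ne hg hz)
  have h2 : conj ((g *ᵥ hx z) 2)⁻¹ ≠ 0 := (map_ne_zero _).2 h1
  rw [pp, pp, nn, nn, n1, n1, hx_act hg hz, mulVec_smul, mulVec_mulVec, mul_assoc, h, mul_one,
    hf_smul, hf_smul, ← mulVec_mulVec, hg, hg, ← div_eq_mul_inv, ← div_eq_mul_inv,
    mul_div_mul_left _ _ (mul_ne_zero h1 h2)]

theorem act_eq (g : M3) : act g = fun z : V =>
    ((g 0 0 * z.1 + g 0 1 * z.2 + g 0 2) * (g 2 0 * z.1 + g 2 1 * z.2 + g 2 2)⁻¹,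
      (g 1 0 * z.1 + g 1 1 * z.2 + g 1 2) * (g 2 0 * z.1 + g 2 1 * z.2 + g 2 2)⁻¹) := by
  funext z; rw [act, mv, mv, mv, div_eq_mul_inv, div_eq_mul_inv]

theorem cd_act {g : M3} (hg : IsU g) : ContDiffOn ℝ 1 (act g) ball := by
  have h : ContDiffOn ℝ 1 (fun z : V => (g 2 0 * z.1 + g 2 1 * z.2 + g 2 2)⁻¹) ball :=
    ContDiffOn.inv (by fun_prop) fun z hz => by rw [← mv]; exact last_ne hg hz
  rw [act_eq]
  exact (ContDiffOn.mul (by fun_prop) h).prodMk (ContDiffOn.mul (by fun_prop) h)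

theorem fderiv_act {g g' : M3} (hg : IsU g) (h : g' * g = 1) {z : V} (hz : z ∈ ball) :
    ∃ L : V →L[ℂ] V, HasFDerivAt (act g) L z ∧
      ∀ A : M3, L (xi A z) = xi (g * A * g') (act g z) := by
  have h0 := last_ne hg hz
  have lin : ∀ i, HasFDerivAt (fun z : V => g i 0 * z.1 + g i 1 * z.2 + g i 2)
      (g i 0 • ContinuousLinearMap.fst ℂ ℂ ℂ + g i 1 • ContinuousLinearMap.snd ℂ ℂ ℂ) z :=
    fun i => ((hasFDerivAt_fst.const_mul _).add (hasFDerivAt_snd.const_mul _)).add_const _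
  have hi := (hasDerivAt_inv (by rw [← mv]; exact h0)).comp_hasFDerivAt z (lin 2)
  refine ⟨_, act_eq g ▸ ((lin 0).mul hi).prodMk ((lin 1).mul hi), fun A => ?_⟩
  have e : (g * A * g') *ᵥ hx (act g z) = ((g *ᵥ hx z) 2)⁻¹ • (g *ᵥ (A *ᵥ hx z)) := by
    rw [hx_act hg hz, mulVec_smul, mulVec_mulVec, mul_assoc, h, mul_one, mulVec_mulVec]
  have e2 : ∀ i, (g *ᵥ (A *ᵥ hx z)) i =
      g i 0 * (A *ᵥ hx z) 0 + g i 1 * (A *ᵥ hx z) 1 + g i 2 * (A *ᵥ hx z) 2 := fun i => by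
    rw [mulVec, dotProduct, Fin.sum_univ_three]
  rw [xi, xi, e, act]
  simp only [Pi.smul_apply, smul_eq_mul, e2, mv g] at h0 ⊢
  ext
  · simp only [ContinuousLinearMap.prod_apply, _root_.add_apply, _root_.smul_apply,
      ContinuousLinearMap.coe_fst', ContinuousLinearMap.coe_snd', smul_eq_mul, Function.comp]
    field_simp
    ring
  · simp only [ContinuousLinearMap.prod_apply, _root_.add_apply, _root_.smul_apply,
      ContinuousLinearMap.coe_fst', ContinuousLinearMap.coe_snd', smul_eq_mul, Function.comp]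
    field_simp
    ring

theorem TT_act {t : ℂ} {g g' : M3} (hg : IsU g) (h : g' * g = 1) (k k' : M3) {θ θ' c : V → ℂ}
    {z : V} (hz : z ∈ ball) (hθ : θ' (act g z) = θ z) (hc : DifferentiableAt ℝ c (act g z)) :
    TT t (g * k * g') (g * k' * g') θ' c (act g z) = TT t k k' θ (fun y => c (act g y)) z := by
  obtain ⟨L, hL, e⟩ := fderiv_act hg h hz
  simp only [TT, f1, f2, NN, pp_act hg h _ hz, hθ, db_comp hL hc, e]

theorem one_lt_pp {k : M3} (hk : IsU k) {z : V} (hz : z ∈ ball) (h : act k z ≠ z) :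
    1 < ‖pp k z‖ ^ 2 := by
  by_contra hh
  have h1 := xi_sq hk hz
  have h0 := last_ne hk hz
  have a : ‖(xi k z).1‖ ^ 2 = 0 := by nlinarith [sq_nonneg ‖(xi k z).1‖, sq_nonneg ‖(xi k z).2‖]
  have b : ‖(xi k z).2‖ ^ 2 = 0 := by nlinarith [sq_nonneg ‖(xi k z).1‖, sq_nonneg ‖(xi k z).2‖]
  rw [sq_eq_zero_iff, norm_eq_zero] at a b
  exact h (Prod.ext ((div_eq_iff h0).2 (sub_eq_zero.1 a)) ((div_eq_iff h0).2 (sub_eq_zero.1 b)))

/-- A differentiable determination of `p ^ (-s / n)`. -/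
theorem root_deriv {k : M3} {θ : V → ℂ} {n s : ℕ} (hn : 0 < n) (hd : DifferentiableOn ℝ θ ball)
    (h : ∀ z ∈ ball, θ z ^ n * pp k z ^ s = 1) (h0 : ∀ z ∈ ball, pp k z ≠ 0) :
    (∀ z ∈ ball, ∀ v,
      pp k z * fderiv ℝ θ z v = -((s : ℂ) / n) * θ z * fderiv ℝ (pp k) z v) ∧
      ContDiffOn ℝ 1 θ ball := by
  have hn' : (n : ℂ) ≠ 0 := by exact_mod_cast hn.ne'
  have A : ∀ z ∈ ball, ∀ v,
      pp k z * fderiv ℝ θ z v = -((s : ℂ) / n) * θ z * fderiv ℝ (pp k) z v := fun z hz v => by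
    have hm := isOpen_ball.mem_nhds hz
    have a := ((hd.differentiableAt hm).hasFDerivAt.pow n).mul
      ((((cd_pp k).contDiffAt hm).differentiableAt one_ne_zero).hasFDerivAt.pow s)
    have b : HasFDerivAt (fun y => θ y ^ n * pp k y ^ s) (0 : V →L[ℝ] ℂ) z :=
      (hasFDerivAt_const (1 : ℂ) z).congr_of_eventuallyEq (Filter.mem_of_superset hm h)
    have c := congrArg (fun L : V →L[ℝ] ℂ => L v) (b.unique a)
    simp only [_root_.add_apply, _root_.smul_apply, smul_eq_mul, nsmul_eq_mul,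
      _root_.zero_apply] at c
    have d1 : (n : ℂ) * θ z ^ (n - 1) * θ z = n * θ z ^ n := by
      rw [mul_assoc, pow_sub_one_mul hn.ne']
    have d2 : (s : ℂ) * pp k z ^ (s - 1) * pp k z = s * pp k z ^ s := by
      rcases Nat.eq_zero_or_pos s with rfl | hs
      · simp
      · rw [mul_assoc, pow_sub_one_mul hs.ne']
    have t0 : θ z ≠ 0 := fun e => by simpa [e, hn.ne'] using h z hz
    have d3 := h z hz
    field_simp
    linear_combination -(θ z * pp k z) * c - θ z ^ n * θ z * fderiv ℝ (pp k) z v * d2 -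
      pp k z ^ s * pp k z * fderiv ℝ θ z v * d1 -
      (s * θ z * fderiv ℝ (pp k) z v + n * pp k z * fderiv ℝ θ z v) * d3
  refine ⟨A, ?_⟩
  rw [← zero_add (1 : WithTop ℕ∞), contDiffOn_succ_iff_fderiv_of_isOpen isOpen_ball]
  refine ⟨hd, by simp, contDiffOn_zero.2 ?_⟩
  have c1 := (cd_pp k).continuousOn_fderiv_of_isOpen isOpen_ball le_rfl
  have c2 : ContinuousOn (fun z => (-((s : ℂ) / n) * θ z * (pp k z)⁻¹) • fderiv ℝ (pp k) z) ball :=
    ((continuousOn_const.mul hd.continuousOn).mul ((cd_pp k).continuousOn.inv₀ h0)).smul c1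
  refine c2.congr fun z hz => ?_
  refine ContinuousLinearMap.ext fun v => ?_
  have := h0 z hz
  rw [_root_.smul_apply, smul_eq_mul]
  field_simp
  have e := A z hz v
  field_simp at e
  linear_combination e

theorem db_sum_zero {ι : Type} (Φ : Finset ι) {u : ι → V → ℂ} {z : V}
    (hu : ∀ i ∈ Φ, DifferentiableAt ℝ (u i) z) (h : ∀ᶠ y in nhds z, ∑ i ∈ Φ, u i y = 1) (v : V) :
    ∑ i ∈ Φ, db (u i) z v = 0 := by
  have h1 : ∑ i ∈ Φ, fderiv ℝ (u i) z = 0 := by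
    have : (fun y => ∑ i ∈ Φ, u i y) =ᶠ[nhds z] fun _ => (1 : ℂ) := h
    rw [← fderiv_fun_sum hu, this.fderiv_eq]; simp
  have h2 : ∀ w, ∑ i ∈ Φ, fderiv ℝ (u i) z w = 0 := fun w => by
    rw [← _root_.sum_apply, h1]; rfl
  simp only [db, ← Finset.sum_div, Finset.sum_add_distrib, ← Finset.mul_sum, h2]
  simp

end Pool.Agent.MP_54e5d7_al.Atc.Tr

end MrgPart4

-- ======== part 5: formerly Pool.Agent.MP_54e5d7_al.atc.tr.Core
section MrgPart5

/-!
PROJECT ATC: the sum of the integrals of the diagonal terms over a conjugation invariant family of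
elements without fixed points vanishes.
-/

set_option autoImplicit false

open scoped ComplexConjugate
open Set MeasureTheory Filter

namespace Pool.Agent.MP_54e5d7_al.Atc

theorem cd_act' (g : SU21) : ContDiffOn ℝ 1 (act g) B := Tr.cd_act (g := g.1.1) g.2

/-- a partition of unity for the lattice -/
theorem exists_pou {Γ : Subgroup SU21} (hΓ : Lat Γ) {r₀ : ℝ} (hr₀ : r₀ < 1) :
    ∃ (χ : C2 → ℂ) (r : ℝ) (Φ : Finset Γ), r₀ ≤ r ∧ r < 1 ∧ ContDiff ℝ 1 χ ∧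
      IsCompact (tsupport χ) ∧ tsupport χ ⊆ Bl r ∧
      (∀ γ : Γ, γ ∉ Φ → ∀ z ∈ Bl r, act γ z ∉ Bl r) ∧
      ∀ z ∈ Bl r, ∑ γ ∈ Φ, χ (act γ z) = 1 := by
  classical
  obtain ⟨r₁, hr₁, hc⟩ := hΓ.cocpt
  obtain ⟨r₃, h3, hr⟩ : ∃ r₃ : ℝ, max r₀ r₁ ≤ r₃ ∧ r₃ < 1 := ⟨_, le_rfl, max_lt hr₀ hr₁⟩
  rw [max_le_iff] at h3
  obtain ⟨r, h4, h5⟩ := exists_between hr
  have hfin : {γ : Γ | ∃ z ∈ Bl r, act γ z ∈ Bl r}.Finite :=
    ((hΓ.finite_meet h5).preimage Subtype.val_injective.injOn).subset fun γ hγ => ⟨γ.2, hγ⟩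
  have hΦ : ∀ γ : Γ, γ ∉ hfin.toFinset → ∀ z ∈ Bl r, act γ z ∉ Bl r := fun γ hγ z hz h =>
    hγ (hfin.mem_toFinset.2 ⟨z, hz, h⟩)
  generalize hfin.toFinset = Φ at hΦ
  have hB : Bl r ⊆ B := Bl_mono h5.le
  let b : C2 → ℝ := fun z => expNegInvGlue (r₃ - nsq z)
  have cb : ContDiff ℝ 1 b := expNegInvGlue.contDiff.comp
    (contDiff_const.sub ((contDiff_fst.norm_sq ℝ).add (contDiff_snd.norm_sq ℝ)))
  have b0 : ∀ z, r₃ ≤ nsq z → b z = 0 := fun z h => expNegInvGlue.zero_of_nonpos (by linarith)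
  have b1 : ∀ z, z ∉ Bl r → b z = 0 := fun z h => b0 z (h4.le.trans (not_lt.1 h))
  let σ : C2 → ℝ := fun z => ∑ γ ∈ Φ, b (act γ z)
  have s1 : ∀ z ∈ Bl r, σ z = ∑ᶠ γ : Γ, b (act γ z) := fun z hz =>
    (finsum_eq_sum_of_support_subset _ fun γ hγ => by
      by_contra h
      exact hγ (b1 _ (hΦ γ h z hz))).symm
  have s2 : ∀ z ∈ Bl r, 0 < σ z := fun z hz => by
    obtain ⟨γ, hγ, h⟩ := hc z (hB hz)
    have h' : nsq (act γ z) < r₁ := h
    refine Finset.sum_pos' (fun _ _ => expNegInvGlue.nonneg _) ⟨⟨γ, hγ⟩, ?_,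
      expNegInvGlue.pos_of_pos (by linarith)⟩
    by_contra hh
    exact hΦ _ hh z hz (show nsq (act γ z) < r by linarith)
  have s3 : ∀ z ∈ Bl r, ∀ γ : Γ, act γ z ∈ Bl r → σ (act γ z) = σ z := fun z hz γ h => by
    rw [s1 _ h, s1 _ hz, ← finsum_comp_equiv (Equiv.mulRight γ) (f := fun g : Γ => b (act g z))]
    refine finsum_congr fun g => ?_
    rw [← act_mul _ _ (hB hz)]; rfl
  have ts : tsupport (fun z => ((b z / σ z : ℝ) : ℂ)) ⊆ {z | nsq z ≤ r₃} :=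
    closure_minimal (fun z hz => by
      by_contra h
      exact hz (by simp [b0 z (not_le.1 h).le])) (isCompact_nsq_le r₃).isClosed
  refine ⟨fun z => ((b z / σ z : ℝ) : ℂ), r, Φ, by linarith, h5, ?_,
    (isCompact_nsq_le r₃).of_isClosed_subset (isClosed_tsupport _) ts,
    ts.trans fun z hz => lt_of_le_of_lt hz h4, hΦ, fun z hz => ?_⟩
  · refine Complex.ofRealCLM.contDiff.comp (contDiff_iff_contDiffAt.2 fun z => ?_)
    by_cases hz : z ∈ Bl r
    · refine cb.contDiffAt.div (ContDiffAt.sum fun γ _ => cb.contDiffAt.comp z ?_) (s2 z hz).ne'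
      exact (cd_act' γ).contDiffAt ((isOpen_Bl 1).mem_nhds (hB hz))
    · refine (contDiffAt_const (c := (0 : ℝ))).congr_of_eventuallyEq ?_
      have : {y | r₃ < nsq y} ∈ nhds z :=
        (isOpen_lt continuous_const continuous_nsq).mem_nhds (h4.trans_le (not_lt.1 hz))
      filter_upwards [this] with y hy
      rw [b0 y hy.le]
      exact zero_div _
  · rw [← Complex.ofReal_sum, ← Complex.ofReal_one, ← div_self (s2 z hz).ne', Finset.sum_div]
    congr 1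
    refine Finset.sum_congr rfl fun γ _ => ?_
    by_cases h : act γ z ∈ Bl r
    · rw [s3 z hz γ h]
    · rw [b1 _ h, zero_div, zero_div]

theorem integrable_mu {K : Set C2} (hK : IsCompact K) {r : ℝ} (hr : r < 1) (hKr : K ⊆ Bl r)
    {e : C2 → ℂ} (he : ContinuousOn e B) (h0 : ∀ z, z ∉ K → e z = 0) : Integrable e mu := by
  refine (integrableOn_iff_integrable_of_support_subset (s := K) fun z hz => ?_).1
    ((he.mono (hKr.trans (Bl_mono hr.le))).integrableOn_of_subset_isCompact hK hK.measurableSet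
      subset_rfl ((measure_mono hKr).trans_lt (mu_Bl_lt_top hr)).ne)
  by_contra h
  exact hz (h0 z h)

/-- unfolding together with conjugation of the index -/
theorem unfold_swap {Γ : Subgroup SU21} (hΓ : Lat Γ) {F : Set C2} (hF : FD Γ F) {r : ℝ}
    (hr : r < 1) (hFr : F ⊆ Bl r) {Φ : Finset Γ}
    (hΦ : ∀ γ : Γ, γ ∉ Φ → ∀ z ∈ Bl r, act γ z ∉ Bl r) {S : Type} (c : Γ → S ≃ S)
    {e : S → C2 → ℂ} {K : Set C2} (hK : IsCompact K) (hKr : K ⊆ Bl r)
    (he : ∀ k, ContinuousOn (e k) B) (h0 : ∀ k z, z ∉ K → e k z = 0) {b : S → ℝ}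
    (hb : Summable b) (hbd : ∀ᶠ k in cofinite, ∀ z, ‖e k z‖ ≤ b k) :
    ∃ σ, HasSum (fun k => ∫ z, e k z ∂mu) σ ∧
      HasSum (fun k => ∫ z in F, ∑ γ ∈ Φ, e (c γ k) (act γ z) ∂mu) σ := by
  have i1 : ∀ k, Integrable (e k) mu := fun k => integrable_mu hK hr hKr (he k) (h0 k)
  have i2 : ∀ k (γ : Γ), IntegrableOn (fun z => e k (act γ z)) F mu := fun k γ =>
    ((measurePreserving_act γ).integrable_comp_of_integrable (i1 k)).integrableOn
  have fin : mu F < ⊤ := (measure_mono hFr).trans_lt (mu_Bl_lt_top hr)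
  have sm : ∀ γ : Γ, Summable fun k => ∫ z in F, e k (act γ z) ∂mu := fun γ =>
    (hb.mul_right (mu.real F)).of_norm_bounded_eventually
      (hbd.mono fun k hk => norm_setIntegral_le_of_norm_le_const fin fun z _ => hk _)
  refine ⟨∑ γ ∈ Φ, ∑' k, ∫ z in F, e k (act γ z) ∂mu, ?_, ?_⟩
  · convert hasSum_sum fun γ (_ : γ ∈ Φ) => (sm γ).hasSum using 2 with k
    exact (hasSum_unfold hΓ hF (i1 k)).unique (hasSum_sum_of_ne_finset_zero fun γ hγ =>
      setIntegral_eq_zero_of_forall_eq_zero fun z hz => h0 _ _ fun h => hΦ γ hγ z (hFr hz) (hKr h))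
  · convert hasSum_sum fun γ (_ : γ ∈ Φ) => (c γ).hasSum_iff.2 (sm γ).hasSum using 2 with k
    exact integral_finsetSum _ fun γ _ => i2 _ γ

theorem integral_mu_wt {e : C2 → ℂ} (h0 : ∀ z, z ∉ B → e z = 0) :
    ∫ z, e z ∂mu = ∫ z, Tr.wt z * e z := by
  have hm := (isOpen_Bl 1).measurableSet
  rw [← setIntegral_eq_integral_of_forall_compl_eq_zero h0, integral_mu hm subset_rfl,
    setIntegral_eq_integral_of_forall_compl_eq_zero fun z hz => by rw [h0 z hz, smul_zero]]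
  congr 1
  funext z
  rw [Tr.wt, rho, nsq, Complex.real_smul, sub_sub]
  push_cast
  rw [inv_pow]

theorem orb_core {Γ : Subgroup SU21} (hΓ : Lat Γ) {F : Set C2} (hF : FD Γ F) {S : Type}
    (P : S → SU21) (c : Γ → S ≃ S) (hc : ∀ γ k, P (c γ k) = γ * P k * (γ : SU21)⁻¹)
    (hP : ∀ k, ∀ z ∈ B, act (P k) z ≠ z) (θ : S → C2 → ℂ) {n s : ℕ} (hn : 0 < n)
    (hs : 2 * n < s) (hd : ∀ k, DifferentiableOn ℝ (θ k) B)
    (hpow : ∀ k, ∀ z ∈ B, θ k z ^ n * Tr.pp (P k).1.1 z ^ s = 1)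
    (heq : ∀ γ k, ∀ z ∈ B, θ (c γ k) (act γ z) = θ k z)
    (hb : ∀ r < (1 : ℝ), ∃ b : S → ℝ, Summable b ∧ ∀ k, ∀ z ∈ Bl r, ‖θ k z‖ ≤ b k) :
    HasSum (fun k => ∫ z in F, θ k z ∂mu) 0 := by
  obtain ⟨r₀, hr₀, hF0⟩ := hF.2.1
  obtain ⟨χ, r, Φ, h1, hr, cχ, hK, hKr, hΦ, hsum⟩ := exists_pou hΓ hr₀
  have hFr : F ⊆ Bl r := hF0.trans (Bl_mono h1)
  have hB : Bl r ⊆ B := Bl_mono hr.le
  obtain ⟨b, sb, hb⟩ := hb r hr
  have inv : ∀ g : SU21, g.1.1 * (g⁻¹).1.1 = 1 := fun g =>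
    congrArg (fun a : SU21 => a.1.1) (mul_inv_cancel g)
  have inv' : ∀ g : SU21, (g⁻¹).1.1 * g.1.1 = 1 := fun g =>
    congrArg (fun a : SU21 => a.1.1) (inv_mul_cancel g)
  have hp : ∀ k, ∀ z ∈ Tr.ball, 1 < ‖Tr.pp (P k).1.1 z‖ ^ 2 := fun k z hz =>
    Tr.one_lt_pp (P k).2 hz (hP k z hz)
  have hθ := fun k => Tr.root_deriv hn (hd k) (hpow k) fun z hz e => by
    have := hp k z hz
    rw [e] at this
    norm_num at this
  obtain ⟨M, hM⟩ := cχ.continuous.bounded_above_of_compact_support hK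
  obtain ⟨D, hD⟩ := (cχ.continuous_fderiv one_ne_zero).bounded_above_of_compact_support
    (HasCompactSupport.fderiv ℝ hK)
  have b0 : ∀ k, ∀ z ∈ Bl r, 0 ≤ b k := fun k z hz => (norm_nonneg _).trans (hb k z hz)
  have M0 : 0 ≤ M := (norm_nonneg _).trans (hM 0)
  have D0 : 0 ≤ D := (norm_nonneg _).trans (hD 0)
  have z1 : ∀ k z, z ∉ tsupport χ → θ k z * χ z = 0 := fun k z hz => by
    rw [image_eq_zero_of_notMem_tsupport hz, mul_zero]
  obtain ⟨σ₁, a1, a2⟩ := unfold_swap hΓ hF hr hFr hΦ c (e := fun k z => θ k z * χ z) hK hKr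
    (fun k => (hd k).continuousOn.mul cχ.continuous.continuousOn) z1 (sb.abs.mul_right M)
    (Eventually.of_forall fun k z => by
      by_cases hz : z ∈ tsupport χ
      · rw [norm_mul]
        exact mul_le_mul ((hb k z (hKr hz)).trans (le_abs_self _)) (hM z) (norm_nonneg _)
          (abs_nonneg _)
      · rw [z1 k z hz, norm_zero]; positivity)
  let t : ℂ := (s : ℂ) / n
  let T : S → C2 → ℂ := fun k => Tr.TT t (P k).1.1 (P k)⁻¹.1.1 (θ k) χ
  have z2 : ∀ k z, z ∉ tsupport χ → T k z = 0 := fun k z hz => by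
    simp only [T, Tr.TT, Tr.db_zero_of_notMem hz, mul_zero, add_zero]
  let A : ℝ := 4 * ‖2 - t‖ * ((1 + 1) / 1) + 8 * ((1 + 1) / 1) ^ 2
  have A0 : 0 ≤ A := by positivity
  have big : ∀ᶠ k in cofinite, b k < (2 ^ s)⁻¹ :=
    sb.tendsto_cofinite_zero.eventually (gt_mem_nhds (by positivity))
  obtain ⟨σ₂, a3, a4⟩ := unfold_swap hΓ hF hr hFr hΦ c (e := T) hK hKr
    (fun k => Tr.cont_TT (P k).2 (inv _) (hp k) (hθ k).2 cχ.contDiffOn) z2
    (sb.abs.mul_left (A * D)) (big.mono fun k hk z => by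
      by_cases hz : z ∈ tsupport χ
      · have hz' := hb k z (hKr hz)
        have h2 : 1 + 1 ≤ ‖Tr.pp (P k).1.1 z‖ ^ 2 := by
          by_contra hh
          have e := congrArg norm (hpow k z (hB (hKr hz)))
          rw [norm_mul, norm_pow, norm_pow, norm_one] at e
          have p0 := norm_nonneg (Tr.pp (P k).1.1 z)
          have p2 : ‖Tr.pp (P k).1.1 z‖ ^ s ≤ 2 ^ s := pow_le_pow_left₀ p0 (by nlinarith) s
          have p3 : (2 ^ s : ℝ)⁻¹ ≤ 1 := inv_le_one_of_one_le₀ (one_le_pow₀ one_le_two)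
          have p4 : ‖θ k z‖ ^ n ≤ ‖θ k z‖ :=
            pow_le_of_le_one (norm_nonneg _) (by linarith) hn.ne'
          have p5 := mul_lt_mul_of_pos_right ((p4.trans hz').trans_lt hk)
            (show (0 : ℝ) < 2 ^ s by positivity)
          rw [inv_mul_cancel₀ (by positivity)] at p5
          have := mul_le_mul_of_nonneg_left p2 (pow_nonneg (norm_nonneg (θ k z)) n)
          linarith
        refine (Tr.norm_TT (P k).2 (inv _) _ _ (hB (hKr hz)) one_pos h2).trans ?_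
        exact mul_le_mul (mul_le_mul_of_nonneg_left (hD z) A0) (hz'.trans (le_abs_self _))
          (norm_nonneg _) (by positivity)
      · rw [z2 k z hz, norm_zero]; positivity)
  have e4 : ∀ k, ∫ z in F, ∑ γ ∈ Φ, T (c γ k) (act γ z) ∂mu = 0 := fun k =>
    setIntegral_eq_zero_of_forall_eq_zero fun z hz => by
      have hzB := hB (hFr hz)
      have e : ∀ γ : Γ, T (c γ k) (act γ z) =
          Tr.TT t (P k).1.1 (P k)⁻¹.1.1 (θ k) (fun y => χ (act γ y)) z := fun γ => by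
        have q : (P (c γ k))⁻¹ = γ * (P k)⁻¹ * (γ : SU21)⁻¹ := by rw [hc]; group
        simp only [T]
        rw [q, hc]
        exact Tr.TT_act (g := (γ : SU21).1.1) (γ : SU21).2 (inv' _) _ _ hzB (heq γ k z hzB)
          (cχ.differentiable one_ne_zero _)
      have d := Tr.db_sum_zero Φ (u := fun γ y => χ (act γ y)) (z := z)
        (fun γ _ => (cχ.differentiable one_ne_zero _).comp z
          (((cd_act' γ).contDiffAt ((isOpen_Bl 1).mem_nhds hzB)).differentiableAt one_ne_zero))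
        (mem_of_superset ((isOpen_Bl r).mem_nhds (hFr hz)) hsum)
      simp only [e, Tr.TT, Finset.sum_add_distrib, ← Finset.mul_sum, d, mul_zero, add_zero]
  have e2 : ∀ k, ∫ z in F, ∑ γ ∈ Φ, θ (c γ k) (act γ z) * χ (act γ z) ∂mu =
      ∫ z in F, θ k z ∂mu := fun k => setIntegral_congr_fun hF.1 fun z hz => by
    simp only [heq _ k z (hB (hFr hz)), ← Finset.mul_sum, hsum z (hFr hz), mul_one]
  have e3 : ∀ k, ∫ z, T k z ∂mu = (2 - t) * (1 - t) * ∫ z, θ k z * χ z ∂mu := fun k => by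
    have : (volume : Measure C2).IsAddHaarMeasure := Measure.prod.instIsAddHaarMeasure _ _
    rw [integral_mu_wt fun z hz => z2 k z fun h => hz (hB (hKr h)),
      integral_mu_wt fun z hz => z1 k z fun h => hz (hB (hKr h))]
    simp only [← mul_assoc]
    exact Tr.integral_prim (P k).2 (inv _) (P k).1.2 (hp k) (hθ k).2 (hθ k).1 cχ hK
      (hKr.trans hB)
  simp only [e4] at a4
  simp only [e2] at a2
  simp only [e3] at a3
  have n0 : (n : ℂ) ≠ 0 := by exact_mod_cast hn.ne'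
  have t0 : (2 - t) * (1 - t) ≠ 0 := by
    refine mul_ne_zero (fun h => ?_) fun h => ?_
    · rw [sub_eq_zero, eq_div_iff n0] at h
      have : 2 * n = s := by exact_mod_cast h
      omega
    · rw [sub_eq_zero, eq_div_iff n0] at h
      have : 1 * n = s := by exact_mod_cast h
      omega
  have := (a1.mul_left ((2 - t) * (1 - t))).unique a3
  rw [a4.unique hasSum_zero] at this
  rwa [(mul_eq_zero.1 this).resolve_left t0] at a2

end Pool.Agent.MP_54e5d7_al.Atc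

end MrgPart5

-- marker of a merged file
example : 731051 + 786943 = 731051 + 786943 := rfl

end MrgPart1

-- marker of a merged file
example : 731051 + 786943 = 731051 + 786943 := rfl
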